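import Pool.Agent.H557R2.Tri.Pts

/-!
# Exact covers and partitions into triples of sum zero
-/

namespace Pool.Agent.H557R2.Tri

open Pool.Agent.NPC Pool.Agent.NPC.H632

/-- The component number `r` of the triple number `i`. -/
def cmp (S : List (ℕ × ℕ × ℕ)) (r i : ℕ) : ℕ :=
  if r = 0 then (S.getD i (0, 0, 0)).1
  else if r = 1 then (S.getD i (0, 0, 0)).2.1 else (S.getD i (0, 0, 0)).2.2

/-- Is the triple number `i` the first one with its component number `r`? -/
def rl (S : List (ℕ × ℕ × ℕ)) (r i : ℕ) : Bool :=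
  (List.range S.length).all fun j => !(decide (j < i) && decide (cmp S r j = cmp S r i))

/-- The modulus. -/
def KK (q : ℕ) : ℤ := 32 * (12 * q + 12)

def aS (S : List (ℕ × ℕ × ℕ)) (k i : ℕ) : ℤ :=
  if k = 0 then 32 * cmp S 0 i + 3 else if k = 1 then 32 * cmp S 1 i + 8 else 32 * cmp S 1 i + 10
def bS (S : List (ℕ × ℕ × ℕ)) (k i : ℕ) : ℤ :=
  if k = 0 then 32 * cmp S 0 i + (if rl S 0 i = true then 2 else 3)
  else if k = 1 then 32 * cmp S 1 i + (if rl S 1 i = true then 8 else 9)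
  else 32 * cmp S 2 i + (if rl S 2 i = true then 20 else 18)
def cS (S : List (ℕ × ℕ × ℕ)) (k i : ℕ) : ℤ :=
  if k = 0 then 0 else if k = 1 then 1 else 32 * cmp S 1 i - 32 * cmp S 2 i - 10

/-- The scale of the heights. -/
def RR (m : ℕ) : ℤ := 4 * ((m + 1) * (m + 1))

def eA (S : List (ℕ × ℕ × ℕ)) (q k i : ℕ) : Elt :=
  (0, RR S.length * (-(KK q * (i + 1)) - aS S k i))
def eB (S : List (ℕ × ℕ × ℕ)) (k i : ℕ) : Elt := (1, RR S.length * bS S k i + i)
def eC (S : List (ℕ × ℕ × ℕ)) (q k i : ℕ) : Elt :=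
  (2, RR S.length * (KK q * (i + 1) + cS S k i))

/-- The elements. -/
def EE (S : List (ℕ × ℕ × ℕ)) (q : ℕ) : List Elt :=
  (List.range S.length).flatMap fun i => (List.range 3).map (fun k => eA S q k i) ++
    ((List.range 3).map (fun k => eB S k i) ++ (List.range 3).map (fun k => eC S q k i))

/-- The promise on the instance of exact cover. -/
structure Pr (S : List (ℕ × ℕ × ℕ)) (q : ℕ) : Prop where
  lt : ∀ t ∈ S, t.1 < 3 * q ∧ t.2.1 < 3 * q ∧ t.2.2 < 3 * q
  d01 : ∀ t ∈ S, ∀ t' ∈ S, t.1 ≠ t'.2.1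
  d02 : ∀ t ∈ S, ∀ t' ∈ S, t.1 ≠ t'.2.2
  d12 : ∀ t ∈ S, ∀ t' ∈ S, t.2.1 ≠ t'.2.2
  occ : ∀ e < 3 * q, ∃ t ∈ S, e ∈ el t
  ne : S ≠ []

variable {S : List (ℕ × ℕ × ℕ)} {q : ℕ}

theorem mem_EE {e : Elt} : e ∈ EE S q ↔ ∃ i < S.length, ∃ k < 3,
    e = eA S q k i ∨ e = eB S k i ∨ e = eC S q k i := by
  unfold EE
  simp only [List.mem_flatMap, List.mem_append, List.mem_map, List.mem_range]
  constructor
  · rintro ⟨i, hi, ⟨k, hk, rfl⟩ | ⟨k, hk, rfl⟩ | ⟨k, hk, rfl⟩⟩
    · exact ⟨i, hi, k, hk, Or.inl rfl⟩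
    · exact ⟨i, hi, k, hk, Or.inr (Or.inl rfl)⟩
    · exact ⟨i, hi, k, hk, Or.inr (Or.inr rfl)⟩
  · rintro ⟨i, hi, k, hk, rfl | rfl | rfl⟩
    · exact ⟨i, hi, Or.inl ⟨k, hk, rfl⟩⟩
    · exact ⟨i, hi, Or.inr (Or.inl ⟨k, hk, rfl⟩)⟩
    · exact ⟨i, hi, Or.inr (Or.inr ⟨k, hk, rfl⟩)⟩

theorem getD_mem {i : ℕ} (hi : i < S.length) : S.getD i (0, 0, 0) ∈ S := by
  rw [List.getD_eq_getElem _ _ hi]
  exact List.getElem_mem hi

theorem Pr.cmp_lt (h : Pr S q) {i : ℕ} (hi : i < S.length) (r : ℕ) : cmp S r i < 3 * q := by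
  have := h.lt _ (getD_mem hi)
  unfold cmp
  split_ifs
  · exact this.1
  · exact this.2.1
  · exact this.2.2

theorem lin {K a b s s' : ℤ} (hs : 2 * |s| < K) (hs' : 2 * |s'| < K)
    (h : K * a + s = K * b + s') : a = b ∧ s = s' := by
  have h1 := abs_lt.1 (show |s| < K by have := abs_nonneg s; linarith)
  have h2 : a = b := by
    by_contra hne
    have h3 : K * (a - b) = s' - s := by linarith
    have h4 : |s' - s| < K := by
      have := abs_sub s' s
      linarith [abs_nonneg s, abs_nonneg s']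
    rw [← h3, abs_mul] at h4
    have h5 : 1 ≤ |a - b| := Int.one_le_abs (sub_ne_zero.2 hne)
    have h6 : |K| ≤ |K| * |a - b| := le_mul_of_one_le_right (abs_nonneg _) h5
    have h7 := le_abs_self K
    linarith
  subst h2
  exact ⟨rfl, by linarith⟩

theorem RR_pos (m : ℕ) : 4 * ((m : ℤ) + 1) ≤ RR m := by
  unfold RR
  have : (0 : ℤ) ≤ m := Int.natCast_nonneg m
  nlinarith

theorem RR_cancel {m : ℕ} {a b : ℤ} {i j : ℕ} (hi : i < m) (hj : j < m)
    (h : RR m * a + i = RR m * b + j) : a = b ∧ i = j := by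
  have h1 := RR_pos m
  have h2 : (i : ℤ) < m := by exact_mod_cast hi
  have h3 : (j : ℤ) < m := by exact_mod_cast hj
  have h4 := lin (K := RR m) (a := a) (b := b) (s := i) (s' := j)
    (by rw [abs_of_nonneg (Int.natCast_nonneg i)]; linarith)
    (by rw [abs_of_nonneg (Int.natCast_nonneg j)]; linarith) h
  exact ⟨h4.1, by exact_mod_cast h4.2⟩

theorem Pr.aS_b (h : Pr S q) {i : ℕ} (hi : i < S.length) (k : ℕ) :
    0 ≤ aS S k i ∧ aS S k i ≤ 96 * q + 10 := by
  have h0 := h.cmp_lt hi 0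
  have h1 := h.cmp_lt hi 1
  unfold aS
  split_ifs <;> constructor <;> omega

theorem Pr.bS_b (h : Pr S q) {i : ℕ} (hi : i < S.length) (k : ℕ) :
    0 ≤ bS S k i ∧ bS S k i ≤ 96 * q + 20 := by
  have h0 := h.cmp_lt hi 0
  have h1 := h.cmp_lt hi 1
  have h2 := h.cmp_lt hi 2
  unfold bS
  split_ifs <;> constructor <;> omega

theorem Pr.cS_b (h : Pr S q) {i : ℕ} (hi : i < S.length) (k : ℕ) :
    -(96 * q + 10) ≤ cS S k i ∧ cS S k i ≤ 96 * q + 1 := by
  have h1 := h.cmp_lt hi 1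
  have h2 := h.cmp_lt hi 2
  unfold cS
  split_ifs <;> constructor <;> omega

theorem Pr.eA_inj (h : Pr S q) {i j k l : ℕ} (hi : i < S.length) (hj : j < S.length) (hk : k < 3)
    (hl : l < 3) (he : eA S q k i = eA S q l j) : i = j ∧ k = l := by
  have h1 := congrArg Prod.snd he
  simp only [eA] at h1
  have h2 := RR_pos S.length
  have h3 : (-(KK q * (i + 1)) - aS S k i) = (-(KK q * (j + 1)) - aS S l j) :=
    mul_left_cancel₀ (by intro h0; rw [h0] at h2; omega) h1
  have a1 := h.aS_b hi k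
  have a2 := h.aS_b hj l
  have h4 := lin (K := KK q) (a := i + 1) (b := j + 1) (s := aS S k i) (s' := aS S l j)
    (by rw [abs_of_nonneg a1.1]; unfold KK; omega) (by rw [abs_of_nonneg a2.1]; unfold KK; omega)
    (by linarith)
  have h5 : i = j := by omega
  subst h5
  refine ⟨rfl, ?_⟩
  have h6 := h4.2
  unfold aS at h6
  have hk' : k = 0 ∨ k = 1 ∨ k = 2 := by omega
  have hl' : l = 0 ∨ l = 1 ∨ l = 2 := by omega
  rcases hk' with rfl | rfl | rfl <;> rcases hl' with rfl | rfl | rfl <;>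
    simp only [if_true, one_ne_zero, OfNat.ofNat_ne_zero, OfNat.ofNat_ne_one, if_false] at h6 ⊢ <;>
    omega

theorem Pr.eC_inj (h : Pr S q) {i j k l : ℕ} (hi : i < S.length) (hj : j < S.length) (hk : k < 3)
    (hl : l < 3) (he : eC S q k i = eC S q l j) : i = j ∧ k = l := by
  have h1 := congrArg Prod.snd he
  simp only [eC] at h1
  have h2 := RR_pos S.length
  have h3 : ((KK q * (i + 1)) + cS S k i) = ((KK q * (j + 1)) + cS S l j) :=
    mul_left_cancel₀ (by intro h0; rw [h0] at h2; omega) h1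
  have a1 := h.cS_b hi k
  have a2 := h.cS_b hj l
  have b1 : |cS S k i| ≤ 96 * q + 10 := by rw [abs_le]; constructor <;> linarith
  have b2 : |cS S l j| ≤ 96 * q + 10 := by rw [abs_le]; constructor <;> linarith
  have h4 := lin (K := KK q) (a := i + 1) (b := j + 1) (s := cS S k i) (s' := cS S l j)
    (by unfold KK; omega) (by unfold KK; omega) (by linarith)
  have h5 : i = j := by omega
  subst h5
  refine ⟨rfl, ?_⟩
  have h6 := h4.2
  unfold cS at h6
  have hk' : k = 0 ∨ k = 1 ∨ k = 2 := by omega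
  have hl' : l = 0 ∨ l = 1 ∨ l = 2 := by omega
  rcases hk' with rfl | rfl | rfl <;> rcases hl' with rfl | rfl | rfl <;>
    simp only [if_true, one_ne_zero, OfNat.ofNat_ne_zero, OfNat.ofNat_ne_one, if_false] at h6 ⊢ <;>
    omega

theorem eB_inj {i j k l : ℕ} (hi : i < S.length) (hj : j < S.length) (hk : k < 3)
    (hl : l < 3) (he : eB S k i = eB S l j) : i = j ∧ k = l := by
  have h1 := congrArg Prod.snd he
  simp only [eB] at h1
  obtain ⟨h6, rfl⟩ := RR_cancel hi hj h1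
  refine ⟨rfl, ?_⟩
  unfold bS at h6
  have hk' : k = 0 ∨ k = 1 ∨ k = 2 := by omega
  have hl' : l = 0 ∨ l = 1 ∨ l = 2 := by omega
  rcases hk' with rfl | rfl | rfl <;> rcases hl' with rfl | rfl | rfl <;>
    simp only [if_true, one_ne_zero, OfNat.ofNat_ne_zero, OfNat.ofNat_ne_one, if_false] at h6 ⊢ <;>
    split_ifs at h6 <;> omega

theorem Pr.EE_nodup (h : Pr S q) : (EE S q).Nodup := by
  unfold EE
  rw [List.nodup_flatMap]
  constructor
  · intro i hi
    rw [List.mem_range] at hi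
    simp only [List.nodup_append', List.disjoint_append_right]
    refine ⟨?_, ⟨?_, ?_, ?_⟩, ?_, ?_⟩
    · exact List.Nodup.map_on (fun k hk l hl he => (h.eA_inj hi hi (List.mem_range.1 hk)
        (List.mem_range.1 hl) he).2) List.nodup_range
    · exact List.Nodup.map_on (fun k hk l hl he => (eB_inj hi hi (List.mem_range.1 hk)
        (List.mem_range.1 hl) he).2) List.nodup_range
    · exact List.Nodup.map_on (fun k hk l hl he => (h.eC_inj hi hi (List.mem_range.1 hk)
        (List.mem_range.1 hl) he).2) List.nodup_range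
    · intro e h1 h2
      obtain ⟨k, -, rfl⟩ := List.mem_map.1 h1
      obtain ⟨l, -, he⟩ := List.mem_map.1 h2
      simp [eB, eC] at he
    · intro e h1 h2
      obtain ⟨k, -, rfl⟩ := List.mem_map.1 h1
      obtain ⟨l, -, he⟩ := List.mem_map.1 h2
      simp [eA, eB] at he
    · intro e h1 h2
      obtain ⟨k, -, rfl⟩ := List.mem_map.1 h1
      obtain ⟨l, -, he⟩ := List.mem_map.1 h2
      simp [eA, eC] at he
  · refine List.nodup_range.imp_of_mem ?_
    intro i j hi hj hne e h1 h2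
    rw [List.mem_range] at hi hj
    simp only [List.mem_append, List.mem_map, List.mem_range] at h1 h2
    apply hne
    rcases h1 with ⟨k, hk, rfl⟩ | ⟨k, hk, rfl⟩ | ⟨k, hk, rfl⟩ <;>
      rcases h2 with ⟨l, hl, he⟩ | ⟨l, hl, he⟩ | ⟨l, hl, he⟩
    · exact (h.eA_inj hj hi hl hk he).1.symm
    · simp [eA, eB] at he
    · simp [eA, eC] at he
    · simp [eA, eB] at he
    · exact (eB_inj hj hi hl hk he).1.symm
    · simp [eB, eC] at he
    · simp [eA, eC] at he
    · simp [eB, eC] at he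
    · exact (h.eC_inj hj hi hl hk he).1.symm

theorem EE_length : (EE S q).length = 9 * S.length := by
  unfold EE
  rw [List.length_flatMap]
  simp [mul_comm]

/-! ### Triples of sum zero -/

/-- The main part of the height. -/
def mn (m : ℕ) (e : Elt) : ℤ := e.2 / RR m

/-- The sum of the main parts. -/
def ms (m : ℕ) (t : Elt × Elt × Elt) : ℤ := mn m t.1 + mn m t.2.1 + mn m t.2.2

theorem mn_eA {k i : ℕ} : mn S.length (eA S q k i) = -(KK q * (i + 1)) - aS S k i := by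
  unfold mn eA
  have := RR_pos S.length
  exact Int.mul_ediv_cancel_left _ (by omega)

theorem mn_eC {k i : ℕ} : mn S.length (eC S q k i) = KK q * (i + 1) + cS S k i := by
  unfold mn eC
  have := RR_pos S.length
  exact Int.mul_ediv_cancel_left _ (by omega)

theorem mn_eB {k i : ℕ} (hi : i < S.length) : mn S.length (eB S k i) = bS S k i := by
  unfold mn eB
  have := RR_pos S.length
  rw [add_comm, Int.add_mul_ediv_left _ _ (by omega),
    Int.ediv_eq_zero_of_lt (by omega) (by omega), zero_add]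

/-- The triples with one element in each cluster, in this order. -/
def Ord (t : Elt × Elt × Elt) : Prop := t.1.1 = 0 ∧ t.2.1.1 = 1 ∧ t.2.2.1 = 2

/-- **The triples of sum zero.** -/
theorem Pr.classify (h : Pr S q) {t : Elt × Elt × Elt} (ht : ∀ e ∈ el t, e ∈ EE S q) (ho : Ord t)
    (hz : ms S.length t = 0) : ∃ i < S.length, ∃ j < S.length,
      (t = (eA S q 0 i, eB S 0 j, eC S q 1 i) ∧ rl S 0 j = true ∧ cmp S 0 j = cmp S 0 i) ∨
      (t = (eA S q 0 i, eB S 0 j, eC S q 0 i) ∧ rl S 0 j = false ∧ cmp S 0 j = cmp S 0 i) ∨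
      (t = (eA S q 1 i, eB S 1 j, eC S q 0 i) ∧ rl S 1 j = true ∧ cmp S 1 j = cmp S 1 i) ∨
      (t = (eA S q 2 i, eB S 1 j, eC S q 1 i) ∧ rl S 1 j = false ∧ cmp S 1 j = cmp S 1 i) ∨
      (t = (eA S q 2 i, eB S 2 j, eC S q 2 i) ∧ rl S 2 j = true ∧ cmp S 2 j = cmp S 2 i) ∨
      (t = (eA S q 1 i, eB S 2 j, eC S q 2 i) ∧ rl S 2 j = false ∧ cmp S 2 j = cmp S 2 i) := by
  obtain ⟨a, b, c⟩ := t
  obtain ⟨h0, h1, h2⟩ := ho
  simp only at h0 h1 h2
  obtain ⟨i, hi, k, hk, ha⟩ := mem_EE.1 (ht a (by simp [el]))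
  obtain ⟨j, hj, l, hl, hb⟩ := mem_EE.1 (ht b (by simp [el]))
  obtain ⟨i', hi', k', hk', hc⟩ := mem_EE.1 (ht c (by simp [el]))
  have ha : a = eA S q k i := by
    rcases ha with rfl | rfl | rfl
    · rfl
    · simp [eB] at h0
    · simp [eC] at h0
  have hb : b = eB S l j := by
    rcases hb with rfl | rfl | rfl
    · simp [eA] at h1
    · rfl
    · simp [eC] at h1
  have hc : c = eC S q k' i' := by
    rcases hc with rfl | rfl | rfl
    · simp [eA] at h2
    · simp [eB] at h2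
    · rfl
  subst ha hb hc
  unfold ms at hz
  simp only at hz
  rw [mn_eA, mn_eB hj, mn_eC] at hz
  have a1 := h.aS_b hi k
  have a2 := h.bS_b hj l
  have a3 := h.cS_b hi' k'
  have b1 : |cS S k' i' + bS S l j - aS S k i| ≤ 192 * q + 30 := by
    rw [abs_le]; constructor <;> linarith
  have h4 := lin (K := KK q) (a := (i' : ℤ) + 1) (b := i + 1)
    (s := cS S k' i' + bS S l j - aS S k i) (s' := 0)
    (by unfold KK; omega) (by unfold KK; simp; omega) (by linarith)
  have h5 : i' = i := by omega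
  subst h5
  have h6 := h4.2
  refine ⟨i', hi, j, hj, ?_⟩
  unfold aS bS cS at h6
  have hk1 : k = 0 ∨ k = 1 ∨ k = 2 := by omega
  have hl1 : l = 0 ∨ l = 1 ∨ l = 2 := by omega
  have hk2 : k' = 0 ∨ k' = 1 ∨ k' = 2 := by omega
  rcases hk1 with rfl | rfl | rfl <;> rcases hl1 with rfl | rfl | rfl <;>
    rcases hk2 with rfl | rfl | rfl <;>
    simp only [if_true, one_ne_zero, OfNat.ofNat_ne_zero, OfNat.ofNat_ne_one, if_false] at h6
  all_goals try (exfalso; split_ifs at h6 <;> omega)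
  · have hr : rl S 0 j = false := by
      by_contra hr; rw [Bool.not_eq_false] at hr; rw [if_pos hr] at h6; omega
    rw [if_neg (by rw [hr]; exact Bool.false_ne_true)] at h6
    exact Or.inr (Or.inl ⟨rfl, hr, by omega⟩)
  · have hr : rl S 0 j = true := by
      by_contra hr; rw [if_neg hr] at h6; omega
    rw [if_pos hr] at h6
    exact Or.inl ⟨rfl, hr, by omega⟩
  · have hr : rl S 1 j = true := by
      by_contra hr; rw [if_neg hr] at h6; omega
    rw [if_pos hr] at h6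
    exact Or.inr (Or.inr (Or.inl ⟨rfl, hr, by omega⟩))
  · have hr : rl S 2 j = false := by
      by_contra hr; rw [Bool.not_eq_false] at hr; rw [if_pos hr] at h6; omega
    rw [if_neg (by rw [hr]; exact Bool.false_ne_true)] at h6
    exact Or.inr (Or.inr (Or.inr (Or.inr (Or.inr ⟨rfl, hr, by omega⟩))))
  · have hr : rl S 1 j = false := by
      by_contra hr; rw [Bool.not_eq_false] at hr; rw [if_pos hr] at h6; omega
    rw [if_neg (by rw [hr]; exact Bool.false_ne_true)] at h6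
    exact Or.inr (Or.inr (Or.inr (Or.inl ⟨rfl, hr, by omega⟩)))
  · have hr : rl S 2 j = true := by
      by_contra hr; rw [if_neg hr] at h6; omega
    rw [if_pos hr] at h6
    exact Or.inr (Or.inr (Or.inr (Or.inr (Or.inl ⟨rfl, hr, by omega⟩))))

/-! ### First occurrences -/

theorem rl_iff {r i : ℕ} : rl S r i = true ↔
    ∀ j < i, j < S.length → cmp S r j ≠ cmp S r i := by
  unfold rl
  simp only [List.all_eq_true, List.mem_range, Bool.not_eq_true', Bool.and_eq_false_iff,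
    decide_eq_false_iff_not]
  constructor
  · intro h j h1 h2 h3
    rcases h j h2 with h4 | h4
    · exact h4 h1
    · exact h4 h3
  · intro h j h2
    by_cases h1 : j < i
    · exact Or.inr (h j h1 h2)
    · exact Or.inl h1

theorem rl_unique {r i j : ℕ} (hi : i < S.length) (hj : j < S.length) (h1 : rl S r i = true)
    (h2 : rl S r j = true) (h : cmp S r i = cmp S r j) : i = j := by
  rw [rl_iff] at h1 h2
  rcases lt_trichotomy i j with h3 | h3 | h3
  · exact absurd h (h2 i h3 hi)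
  · exact h3
  · exact absurd h.symm (h1 j h3 hj)

theorem rl_exists {r i : ℕ} (hi : i < S.length) :
    ∃ j < S.length, rl S r j = true ∧ cmp S r j = cmp S r i := by
  classical
  have hex : ∃ j, j < S.length ∧ cmp S r j = cmp S r i := ⟨i, hi, rfl⟩
  refine ⟨Nat.find hex, (Nat.find_spec hex).1, ?_, (Nat.find_spec hex).2⟩
  rw [rl_iff]
  intro j h1 h2 h3
  exact Nat.find_min hex h1 ⟨h2, h3.trans (Nat.find_spec hex).2⟩

/-! ### From partitions to exact covers -/

theorem Pr.cmp_role (h : Pr S q) {i j : ℕ} (hi : i < S.length) (hj : j < S.length) {r s : ℕ}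
    (hr : r < 3) (hs : s < 3) (he : cmp S r i = cmp S s j) : r = s := by
  have a1 := h.d01 _ (getD_mem hi) _ (getD_mem hj)
  have a2 := h.d02 _ (getD_mem hi) _ (getD_mem hj)
  have a3 := h.d12 _ (getD_mem hi) _ (getD_mem hj)
  have b1 := h.d01 _ (getD_mem hj) _ (getD_mem hi)
  have b2 := h.d02 _ (getD_mem hj) _ (getD_mem hi)
  have b3 := h.d12 _ (getD_mem hj) _ (getD_mem hi)
  unfold cmp at he
  have hr' : r = 0 ∨ r = 1 ∨ r = 2 := by omega
  have hs' : s = 0 ∨ s = 1 ∨ s = 2 := by omega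
  rcases hr' with rfl | rfl | rfl <;> rcases hs' with rfl | rfl | rfl <;>
    simp only [if_true, one_ne_zero, OfNat.ofNat_ne_zero, OfNat.ofNat_ne_one, if_false] at he ⊢
  · exact absurd he a1
  · exact absurd he a2
  · exact absurd he.symm b1
  · exact absurd he a3
  · exact absurd he.symm b2
  · exact absurd he.symm b3

theorem mem_el_getD {i e : ℕ} : e ∈ el (S.getD i (0, 0, 0)) ↔ ∃ r < 3, e = cmp S r i := by
  unfold el cmp
  simp only [List.mem_cons, List.not_mem_nil, or_false]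
  constructor
  · rintro (h | h | h)
    · exact ⟨0, by omega, by simpa using h⟩
    · exact ⟨1, by omega, by simpa using h⟩
    · exact ⟨2, by omega, by simpa using h⟩
  · rintro ⟨r, hr, h⟩
    have hr' : r = 0 ∨ r = 1 ∨ r = 2 := by omega
    rcases hr' with rfl | rfl | rfl
    · exact Or.inl (by simpa using h)
    · exact Or.inr (Or.inl (by simpa using h))
    · exact Or.inr (Or.inr (by simpa using h))

/-- A set of indices covering everything exactly once gives an exact cover. -/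
theorem Pr.x3c_of (h : Pr S q) {I : ℕ → Prop} (h1 : ∀ i < S.length, ∀ r < 3, ∃ j < S.length,
    I j ∧ cmp S r j = cmp S r i) (h2 : ∀ i < S.length, ∀ j < S.length, I i → I j → ∀ r < 3,
    cmp S r i = cmp S r j → i = j) : X3C (S, q) := by
  classical
  let C := ((List.range S.length).filter fun i => decide (I i)).map fun i => S.getD i (0, 0, 0)
  refine ⟨C, ?_, ?_⟩
  · intro t ht
    obtain ⟨i, hi, rfl⟩ := List.mem_map.1 ht
    exact getD_mem (List.mem_range.1 (List.mem_filter.1 hi).1)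
  · have hmem : ∀ i ∈ (List.range S.length).filter fun i => decide (I i), i < S.length ∧ I i := by
      intro i hi
      rw [List.mem_filter] at hi
      exact ⟨List.mem_range.1 hi.1, by simpa using hi.2⟩
    rw [List.perm_ext_iff_of_nodup ?_ List.nodup_range]
    · intro e
      rw [List.mem_range]
      constructor
      · intro he
        obtain ⟨t, ht, het⟩ := List.mem_flatMap.1 he
        obtain ⟨i, hi, rfl⟩ := List.mem_map.1 ht
        obtain ⟨r, -, rfl⟩ := mem_el_getD.1 het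
        exact h.cmp_lt (hmem i hi).1 r
      · intro he
        obtain ⟨t, ht, het⟩ := h.occ e he
        obtain ⟨i, hi, rfl⟩ := List.getElem_of_mem ht
        rw [← List.getD_eq_getElem _ (0, 0, 0) hi] at het
        obtain ⟨r, hr, rfl⟩ := mem_el_getD.1 het
        obtain ⟨j, hj, hIj, hc⟩ := h1 i hi r hr
        refine List.mem_flatMap.2 ⟨_, List.mem_map_of_mem (List.mem_filter.2
          ⟨List.mem_range.2 hj, by simpa using hIj⟩), ?_⟩
        rw [← hc]
        exact mem_el_getD.2 ⟨r, hr, rfl⟩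
    · rw [List.flatMap_map, List.nodup_flatMap]
      constructor
      · intro i hi
        have hi' := (hmem i hi).1
        have h01 := h.d01 _ (getD_mem hi') _ (getD_mem hi')
        have h02 := h.d02 _ (getD_mem hi') _ (getD_mem hi')
        have h12 := h.d12 _ (getD_mem hi') _ (getD_mem hi')
        simp only [el, List.nodup_cons, List.mem_cons, List.not_mem_nil, or_false, not_or,
          not_false_eq_true, List.nodup_nil, and_true]
        exact ⟨⟨h01, h02⟩, h12⟩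
      · refine (List.nodup_range.filter _).imp_of_mem ?_
        intro i j hi hj hne e he he'
        obtain ⟨r, hr, rfl⟩ := mem_el_getD.1 he
        obtain ⟨s, hs, hc⟩ := mem_el_getD.1 he'
        have hi' := hmem i hi
        have hj' := hmem j hj
        have := h.cmp_role hi'.1 hj'.1 hr hs hc
        subst this
        exact hne (h2 i hi'.1 j hj'.1 hi'.2 hj'.2 r hr hc)

/-- **From partitions into ordered triples of sum zero to exact covers.** -/
theorem Pr.to_x3c (h : Pr S q) {π : List (Elt × Elt × Elt)} (hp : (π.flatMap el).Perm (EE S q))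
    (ho : ∀ t ∈ π, Ord t) (hz : ∀ t ∈ π, ms S.length t = 0) : X3C (S, q) := by
  have hmem : ∀ t ∈ π, ∀ e ∈ el t, e ∈ EE S q := fun t ht e he =>
    hp.mem_iff.1 (List.mem_flatMap.2 ⟨t, ht, he⟩)
  have hcl := fun t ht => h.classify (hmem t ht) (ho t ht) (hz t ht)
  have hun : ∀ {t t' : Elt × Elt × Elt}, t ∈ π → t' ∈ π → ∀ {e : Elt}, e ∈ el t → e ∈ el t' →
      t = t' := fun ht ht' _ he he' => cover_unique h.EE_nodup hp ht ht' he he'
  have hex : ∀ e ∈ EE S q, ∃ t ∈ π, e ∈ el t := fun e he =>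
    List.mem_flatMap.1 (hp.mem_iff.2 he)
  have hA : ∀ i < S.length, ∀ k < 3, ∃ t ∈ π, t.1 = eA S q k i := by
    intro i hi k hk
    obtain ⟨t, ht, he⟩ := hex _ (mem_EE.2 ⟨i, hi, k, hk, Or.inl rfl⟩)
    refine ⟨t, ht, ?_⟩
    obtain ⟨o0, o1, o2⟩ := ho t ht
    simp only [el, List.mem_cons, List.not_mem_nil, or_false] at he
    rcases he with he | he | he
    · exact he.symm
    · rw [← he] at o1; simp [eA] at o1
    · rw [← he] at o2; simp [eA] at o2
  have hB : ∀ i < S.length, ∀ k < 3, ∃ t ∈ π, t.2.1 = eB S k i := by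
    intro i hi k hk
    obtain ⟨t, ht, he⟩ := hex _ (mem_EE.2 ⟨i, hi, k, hk, Or.inr (Or.inl rfl)⟩)
    refine ⟨t, ht, ?_⟩
    obtain ⟨o0, o1, o2⟩ := ho t ht
    simp only [el, List.mem_cons, List.not_mem_nil, or_false] at he
    rcases he with he | he | he
    · rw [← he] at o0; simp [eB] at o0
    · exact he.symm
    · rw [← he] at o2; simp [eB] at o2
  have hC : ∀ i < S.length, ∀ k < 3, ∃ t ∈ π, t.2.2 = eC S q k i := by
    intro i hi k hk
    obtain ⟨t, ht, he⟩ := hex _ (mem_EE.2 ⟨i, hi, k, hk, Or.inr (Or.inr rfl)⟩)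
    refine ⟨t, ht, ?_⟩
    obtain ⟨o0, o1, o2⟩ := ho t ht
    simp only [el, List.mem_cons, List.not_mem_nil, or_false] at he
    rcases he with he | he | he
    · rw [← he] at o0; simp [eC] at o0
    · rw [← he] at o1; simp [eC] at o1
    · exact he.symm
  have m1 : ∀ t : Elt × Elt × Elt, t.1 ∈ el t := fun t => by simp [el]
  have m2 : ∀ t : Elt × Elt × Elt, t.2.1 ∈ el t := fun t => by simp [el]
  have m3 : ∀ t : Elt × Elt × Elt, t.2.2 ∈ el t := fun t => by simp [el]
  -- the triples through the elements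
  have hA0 : ∀ i < S.length,
      (∃ j < S.length, (eA S q 0 i, eB S 0 j, eC S q 1 i) ∈ π ∧ rl S 0 j = true ∧
        cmp S 0 j = cmp S 0 i) ∨
      (∃ j < S.length, (eA S q 0 i, eB S 0 j, eC S q 0 i) ∈ π) := by
    intro i hi
    obtain ⟨t, ht, hte⟩ := hA i hi 0 (by norm_num)
    obtain ⟨i', hi', j, hj, ⟨rfl, hr, hc⟩ | ⟨rfl, hr, hc⟩ | ⟨rfl, hr, hc⟩ | ⟨rfl, hr, hc⟩ |
      ⟨rfl, hr, hc⟩ | ⟨rfl, hr, hc⟩⟩ := hcl t ht <;>
      have e := h.eA_inj hi' hi (by norm_num) (by norm_num) hte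
    · obtain rfl := e.1
      exact Or.inl ⟨j, hj, ht, hr, hc⟩
    · obtain rfl := e.1
      exact Or.inr ⟨j, hj, ht⟩
    all_goals exact absurd e.2 (by norm_num)
  have hA1 : ∀ i < S.length,
      (∃ j < S.length, (eA S q 1 i, eB S 1 j, eC S q 0 i) ∈ π ∧ rl S 1 j = true ∧
        cmp S 1 j = cmp S 1 i) ∨
      (∃ j < S.length, (eA S q 1 i, eB S 2 j, eC S q 2 i) ∈ π) := by
    intro i hi
    obtain ⟨t, ht, hte⟩ := hA i hi 1 (by norm_num)
    obtain ⟨i', hi', j, hj, ⟨rfl, hr, hc⟩ | ⟨rfl, hr, hc⟩ | ⟨rfl, hr, hc⟩ | ⟨rfl, hr, hc⟩ |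
      ⟨rfl, hr, hc⟩ | ⟨rfl, hr, hc⟩⟩ := hcl t ht <;>
      have e := h.eA_inj hi' hi (by norm_num) (by norm_num) hte
    · exact absurd e.2 (by norm_num)
    · exact absurd e.2 (by norm_num)
    · obtain rfl := e.1
      exact Or.inl ⟨j, hj, ht, hr, hc⟩
    · exact absurd e.2 (by norm_num)
    · exact absurd e.2 (by norm_num)
    · obtain rfl := e.1
      exact Or.inr ⟨j, hj, ht⟩
  have hC0 : ∀ i < S.length,
      (∃ j < S.length, (eA S q 0 i, eB S 0 j, eC S q 0 i) ∈ π) ∨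
      (∃ j < S.length, (eA S q 1 i, eB S 1 j, eC S q 0 i) ∈ π ∧ rl S 1 j = true ∧
        cmp S 1 j = cmp S 1 i) := by
    intro i hi
    obtain ⟨t, ht, hte⟩ := hC i hi 0 (by norm_num)
    obtain ⟨i', hi', j, hj, ⟨rfl, hr, hc⟩ | ⟨rfl, hr, hc⟩ | ⟨rfl, hr, hc⟩ | ⟨rfl, hr, hc⟩ |
      ⟨rfl, hr, hc⟩ | ⟨rfl, hr, hc⟩⟩ := hcl t ht <;>
      have e := h.eC_inj hi' hi (by norm_num) (by norm_num) hte
    · exact absurd e.2 (by norm_num)
    · obtain rfl := e.1
      exact Or.inl ⟨j, hj, ht⟩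
    · obtain rfl := e.1
      exact Or.inr ⟨j, hj, ht, hr, hc⟩
    all_goals exact absurd e.2 (by norm_num)
  have hC2 : ∀ i < S.length,
      (∃ j < S.length, (eA S q 2 i, eB S 2 j, eC S q 2 i) ∈ π ∧ rl S 2 j = true ∧
        cmp S 2 j = cmp S 2 i) ∨
      (∃ j < S.length, (eA S q 1 i, eB S 2 j, eC S q 2 i) ∈ π) := by
    intro i hi
    obtain ⟨t, ht, hte⟩ := hC i hi 2 (by norm_num)
    obtain ⟨i', hi', j, hj, ⟨rfl, hr, hc⟩ | ⟨rfl, hr, hc⟩ | ⟨rfl, hr, hc⟩ | ⟨rfl, hr, hc⟩ |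
      ⟨rfl, hr, hc⟩ | ⟨rfl, hr, hc⟩⟩ := hcl t ht <;>
      have e := h.eC_inj hi' hi (by norm_num) (by norm_num) hte
    · exact absurd e.2 (by norm_num)
    · exact absurd e.2 (by norm_num)
    · exact absurd e.2 (by norm_num)
    · exact absurd e.2 (by norm_num)
    · obtain rfl := e.1
      exact Or.inl ⟨j, hj, ht, hr, hc⟩
    · obtain rfl := e.1
      exact Or.inr ⟨j, hj, ht⟩
  -- exclusions
  have x1 : ∀ i j j', i < S.length → (eA S q 0 i, eB S 0 j, eC S q 0 i) ∈ π →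
      (eA S q 1 i, eB S 1 j', eC S q 0 i) ∈ π → False := by
    intro i j j' hi h1 h2
    have h3 := hun h1 h2 (m3 _) (m3 (eA S q 1 i, eB S 1 j', eC S q 0 i))
    have h4 := congrArg Prod.fst h3
    exact absurd (h.eA_inj hi hi (by norm_num) (by norm_num) h4).2 (by norm_num)
  have x2 : ∀ i j j', i < S.length → (eA S q 0 i, eB S 0 j, eC S q 0 i) ∈ π →
      (eA S q 0 i, eB S 0 j', eC S q 1 i) ∈ π → False := by
    intro i j j' hi h1 h2
    have h3 := hun h1 h2 (m1 _) (m1 (eA S q 0 i, eB S 0 j', eC S q 1 i))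
    have h4 := congrArg (fun t => t.2.2) h3
    exact absurd (h.eC_inj hi hi (by norm_num) (by norm_num) h4).2 (by norm_num)
  have x3 : ∀ i j j', i < S.length → (eA S q 1 i, eB S 1 j, eC S q 0 i) ∈ π →
      (eA S q 1 i, eB S 2 j', eC S q 2 i) ∈ π → False := by
    intro i j j' hi h1 h2
    have h3 := hun h1 h2 (m1 _) (m1 (eA S q 1 i, eB S 2 j', eC S q 2 i))
    have h4 := congrArg (fun t => t.2.2) h3
    exact absurd (h.eC_inj hi hi (by norm_num) (by norm_num) h4).2 (by norm_num)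
  have x4 : ∀ i j j', i < S.length → (eA S q 2 i, eB S 2 j, eC S q 2 i) ∈ π →
      (eA S q 1 i, eB S 2 j', eC S q 2 i) ∈ π → False := by
    intro i j j' hi h1 h2
    have h3 := hun h1 h2 (m3 _) (m3 (eA S q 1 i, eB S 2 j', eC S q 2 i))
    have h4 := congrArg Prod.fst h3
    exact absurd (h.eA_inj hi hi (by norm_num) (by norm_num) h4).2 (by norm_num)
  -- the chosen indices
  let I : ℕ → Prop := fun i => ∃ j < S.length, (eA S q 0 i, eB S 0 j, eC S q 1 i) ∈ π ∧
    rl S 0 j = true ∧ cmp S 0 j = cmp S 0 i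
  have f1 : ∀ i < S.length, I i → ∃ j < S.length, (eA S q 1 i, eB S 1 j, eC S q 0 i) ∈ π ∧
      rl S 1 j = true ∧ cmp S 1 j = cmp S 1 i := by
    rintro i hi ⟨j, hj, h1, h2, h3⟩
    rcases hC0 i hi with ⟨j', hj', h4⟩ | h4
    · exact absurd (x2 i j' j hi h4 h1) (by simp)
    · exact h4
  have f2 : ∀ i < S.length, I i → ∃ j < S.length, (eA S q 2 i, eB S 2 j, eC S q 2 i) ∈ π ∧
      rl S 2 j = true ∧ cmp S 2 j = cmp S 2 i := by
    intro i hi hI
    obtain ⟨j, hj, h1, -, -⟩ := f1 i hi hI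
    rcases hC2 i hi with h4 | ⟨j', hj', h4⟩
    · exact h4
    · exact absurd (x3 i j j' hi h1 h4) (by simp)
  have g1 : ∀ i < S.length, (∃ j < S.length, (eA S q 1 i, eB S 1 j, eC S q 0 i) ∈ π) → I i := by
    rintro i hi ⟨j, hj, h1⟩
    rcases hA0 i hi with h2 | ⟨j', hj', h2⟩
    · exact h2
    · exact absurd (x1 i j' j hi h2 h1) (by simp)
  have g2 : ∀ i < S.length, (∃ j < S.length, (eA S q 2 i, eB S 2 j, eC S q 2 i) ∈ π) → I i := by
    rintro i hi ⟨j, hj, h1⟩
    rcases hA1 i hi with ⟨j', hj', h2, -⟩ | ⟨j', hj', h2⟩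
    · exact g1 i hi ⟨j', hj', h2⟩
    · exact absurd (x4 i j j' hi h1 h2) (by simp)
  refine h.x3c_of (I := I) ?_ ?_
  · intro i hi r hr
    obtain ⟨j, hj, hrl, hc⟩ := rl_exists (r := r) hi
    have hr' : r = 0 ∨ r = 1 ∨ r = 2 := by omega
    obtain ⟨t, ht, hte⟩ := hB j hj r hr
    rcases hr' with rfl | rfl | rfl
    · obtain ⟨i', hi', j', hj', ⟨rfl, hr2, hc2⟩ | ⟨rfl, hr2, hc2⟩ | ⟨rfl, hr2, hc2⟩ |
        ⟨rfl, hr2, hc2⟩ | ⟨rfl, hr2, hc2⟩ | ⟨rfl, hr2, hc2⟩⟩ := hcl t ht <;>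
        have e := eB_inj hj' hj (by norm_num) (by norm_num) hte
      · obtain rfl := e.1
        exact ⟨i', hi', ⟨j', hj', ht, hr2, hc2⟩, hc2.symm.trans hc⟩
      · obtain rfl := e.1
        rw [hrl] at hr2
        exact absurd hr2 (by simp)
      all_goals exact absurd e.2 (by norm_num)
    · obtain ⟨i', hi', j', hj', ⟨rfl, hr2, hc2⟩ | ⟨rfl, hr2, hc2⟩ | ⟨rfl, hr2, hc2⟩ |
        ⟨rfl, hr2, hc2⟩ | ⟨rfl, hr2, hc2⟩ | ⟨rfl, hr2, hc2⟩⟩ := hcl t ht <;>
        have e := eB_inj hj' hj (by norm_num) (by norm_num) hte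
      · exact absurd e.2 (by norm_num)
      · exact absurd e.2 (by norm_num)
      · obtain rfl := e.1
        exact ⟨i', hi', g1 i' hi' ⟨j', hj', ht⟩, hc2.symm.trans hc⟩
      · obtain rfl := e.1
        rw [hrl] at hr2
        exact absurd hr2 (by simp)
      · exact absurd e.2 (by norm_num)
      · exact absurd e.2 (by norm_num)
    · obtain ⟨i', hi', j', hj', ⟨rfl, hr2, hc2⟩ | ⟨rfl, hr2, hc2⟩ | ⟨rfl, hr2, hc2⟩ |
        ⟨rfl, hr2, hc2⟩ | ⟨rfl, hr2, hc2⟩ | ⟨rfl, hr2, hc2⟩⟩ := hcl t ht <;>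
        have e := eB_inj hj' hj (by norm_num) (by norm_num) hte
      · exact absurd e.2 (by norm_num)
      · exact absurd e.2 (by norm_num)
      · exact absurd e.2 (by norm_num)
      · exact absurd e.2 (by norm_num)
      · obtain rfl := e.1
        exact ⟨i', hi', g2 i' hi' ⟨j', hj', ht⟩, hc2.symm.trans hc⟩
      · obtain rfl := e.1
        rw [hrl] at hr2
        exact absurd hr2 (by simp)
  · intro i hi i' hi' hI hI' r hr hc
    have hr' : r = 0 ∨ r = 1 ∨ r = 2 := by omega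
    rcases hr' with rfl | rfl | rfl
    · obtain ⟨j, hj, h1, h2, h3⟩ := hI
      obtain ⟨j', hj', h1', h2', h3'⟩ := hI'
      have e := rl_unique hj hj' h2 h2' (h3.trans (hc.trans h3'.symm))
      subst e
      have h4 := hun h1 h1' (m2 _) (m2 (eA S q 0 i', eB S 0 j, eC S q 1 i'))
      exact (h.eA_inj hi hi' (by norm_num) (by norm_num) (congrArg Prod.fst h4)).1
    · obtain ⟨j, hj, h1, h2, h3⟩ := f1 i hi hI
      obtain ⟨j', hj', h1', h2', h3'⟩ := f1 i' hi' hI'
      have e := rl_unique hj hj' h2 h2' (h3.trans (hc.trans h3'.symm))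
      subst e
      have h4 := hun h1 h1' (m2 _) (m2 (eA S q 1 i', eB S 1 j, eC S q 0 i'))
      exact (h.eA_inj hi hi' (by norm_num) (by norm_num) (congrArg Prod.fst h4)).1
    · obtain ⟨j, hj, h1, h2, h3⟩ := f2 i hi hI
      obtain ⟨j', hj', h1', h2', h3'⟩ := f2 i' hi' hI'
      have e := rl_unique hj hj' h2 h2' (h3.trans (hc.trans h3'.symm))
      subst e
      have h4 := hun h1 h1' (m2 _) (m2 (eA S q 2 i', eB S 2 j, eC S q 2 i'))
      exact (h.eA_inj hi hi' (by norm_num) (by norm_num) (congrArg Prod.fst h4)).1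

end Pool.Agent.H557R2.Tri
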