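import Pool.Agent.H557R2.Tri.Comb

/-!
# From exact covers to partitions into triples of sum zero
-/

namespace Pool.Agent.H557R2.Tri

open Pool.Agent.NPC Pool.Agent.NPC.H632

variable {S : List (ℕ × ℕ × ℕ)} {q : ℕ}

/-- A set of indices from an exact cover. -/
theorem Pr.exists_set (h : Pr S q) (hx : X3C (S, q)) : ∃ I : ℕ → Prop,
    (∀ i < S.length, ∀ r < 3, ∃ j < S.length, I j ∧ cmp S r j = cmp S r i) ∧
    (∀ i < S.length, ∀ j < S.length, I i → I j → ∀ r < 3, cmp S r i = cmp S r j → i = j) := by
  classical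
  obtain ⟨C, hC, hp⟩ := hx
  simp only at hC hp
  refine ⟨fun i => S.getD i (0, 0, 0) ∈ C ∧ ∀ j < i, S.getD j (0, 0, 0) ≠ S.getD i (0, 0, 0),
    ?_, ?_⟩
  · intro i hi r hr
    have h1 : cmp S r i ∈ C.flatMap el := hp.mem_iff.2 (List.mem_range.2 (h.cmp_lt hi r))
    obtain ⟨t, ht, het⟩ := List.mem_flatMap.1 h1
    obtain ⟨k, hk, hkt⟩ := List.getElem_of_mem (hC t ht)
    rw [← List.getD_eq_getElem _ (0, 0, 0) hk] at hkt
    have hex : ∃ k, k < S.length ∧ S.getD k (0, 0, 0) = t := ⟨k, hk, hkt⟩
    have hs := Nat.find_spec hex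
    refine ⟨Nat.find hex, hs.1, ⟨by rw [hs.2]; exact ht, ?_⟩, ?_⟩
    · intro j hj h2
      exact Nat.find_min hex hj ⟨lt_trans hj hs.1, by rw [h2, hs.2]⟩
    · rw [← hs.2] at het
      obtain ⟨s, hs', hc⟩ := mem_el_getD.1 het
      have := h.cmp_role hi hs.1 hr hs' hc
      rw [this]
      rw [this] at hc
      exact hc.symm
  · rintro i hi j hj ⟨h1, h2⟩ ⟨h3, h4⟩ r hr hc
    have h5 := cover_unique List.nodup_range hp h1 h3 (e := cmp S r i)
      (mem_el_getD.2 ⟨r, hr, rfl⟩) (mem_el_getD.2 ⟨r, hr, hc⟩)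
    rcases lt_trichotomy i j with h6 | h6 | h6
    · exact absurd h5 (h4 i h6)
    · exact h6
    · exact absurd h5.symm (h2 j h6)

/-- The assignment of the second elements. -/
theorem Pr.exists_perm {I : ℕ → Prop}
    (h1 : ∀ i < S.length, ∀ r < 3, ∃ j < S.length, I j ∧ cmp S r j = cmp S r i)
    (h2 : ∀ i < S.length, ∀ j < S.length, I i → I j → ∀ r < 3, cmp S r i = cmp S r j → i = j)
    (r : ℕ) (hr : r < 3) : ∃ σ : ℕ → ℕ, (∀ i < S.length, σ i < S.length ∧
      cmp S r (σ i) = cmp S r i ∧ (rl S r (σ i) = true ↔ I i)) ∧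
      ∀ j < S.length, ∃ i < S.length, σ i = j := by
  classical
  have hs : ∀ i, ∃ s, i < S.length → s < S.length ∧ I s ∧ cmp S r s = cmp S r i := by
    intro i
    by_cases hi : i < S.length
    · obtain ⟨s, hs1, hs2, hs3⟩ := h1 i hi r hr
      exact ⟨s, fun _ => ⟨hs1, hs2, hs3⟩⟩
    · exact ⟨0, fun h => absurd h hi⟩
  choose s hs using hs
  have hf : ∀ i, ∃ f, i < S.length → f < S.length ∧ rl S r f = true ∧ cmp S r f = cmp S r i := by
    intro i
    by_cases hi : i < S.length
    · obtain ⟨f, hf1, hf2, hf3⟩ := rl_exists (r := r) hi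
      exact ⟨f, fun _ => ⟨hf1, hf2, hf3⟩⟩
    · exact ⟨0, fun h => absurd h hi⟩
  choose f hf using hf
  refine ⟨fun i => if I i then f i else if rl S r i = true then s i else i, ?_, ?_⟩
  · intro i hi
    obtain ⟨s1, s2, s3⟩ := hs i hi
    obtain ⟨f1, f2, f3⟩ := hf i hi
    by_cases hI : I i
    · simp only [hI, if_true]
      exact ⟨f1, f3, by simp [f2]⟩
    · by_cases hrl : rl S r i = true
      · simp only [hI, hrl, if_false, if_true]
        refine ⟨s1, s3, ?_⟩
        simp only [iff_false]
        intro h3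
        have := rl_unique s1 hi h3 hrl s3
        rw [this] at s2
        exact hI s2
      · simp only [hI, hrl, if_false, Bool.false_eq_true]
        exact ⟨hi, trivial, by simp⟩
  · intro j hj
    obtain ⟨s1, s2, s3⟩ := hs j hj
    obtain ⟨f1, f2, f3⟩ := hf j hj
    by_cases hrl : rl S r j = true
    · refine ⟨s j, s1, ?_⟩
      simp only [s2, if_true]
      obtain ⟨g1, g2, g3⟩ := hf (s j) s1
      exact rl_unique g1 hj g2 hrl (g3.trans s3)
    · by_cases hI : I j
      · refine ⟨f j, f1, ?_⟩
        have hnf : ¬ I (f j) := by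
          intro h3
          have := h2 _ f1 _ hj h3 hI r hr f3
          rw [this] at f2
          exact hrl f2
        simp only [hnf, f2, if_false, if_true]
        obtain ⟨g1, g2, g3⟩ := hs (f j) f1
        exact h2 _ g1 _ hj g2 hI r hr (g3.trans f3)
      · refine ⟨j, hj, ?_⟩
        simp only [hI, hrl, if_false, Bool.false_eq_true]

theorem ms_eq {a k c i j : ℕ} (hj : j < S.length) :
    ms S.length (eA S q a i, eB S k j, eC S q c i) = bS S k j + cS S c i - aS S a i := by
  unfold ms
  simp only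
  rw [mn_eA, mn_eB hj, mn_eC]
  ring

/-- **From exact covers to partitions into ordered triples of sum zero.** -/
theorem Pr.of_x3c (h : Pr S q) (hx : X3C (S, q)) : ∃ π : List (Elt × Elt × Elt),
    (π.flatMap el).Perm (EE S q) ∧ (∀ t ∈ π, Ord t) ∧ ∀ t ∈ π, ms S.length t = 0 := by
  classical
  obtain ⟨I, h1, h2⟩ := h.exists_set hx
  obtain ⟨σ0, s0, t0⟩ := Pr.exists_perm h1 h2 0 (by norm_num)
  obtain ⟨σ1, s1, t1⟩ := Pr.exists_perm h1 h2 1 (by norm_num)
  obtain ⟨σ2, s2, t2⟩ := Pr.exists_perm h1 h2 2 (by norm_num)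
  let T : ℕ → List (Elt × Elt × Elt) := fun i => if I i then
    [(eA S q 0 i, eB S 0 (σ0 i), eC S q 1 i), (eA S q 1 i, eB S 1 (σ1 i), eC S q 0 i),
      (eA S q 2 i, eB S 2 (σ2 i), eC S q 2 i)] else
    [(eA S q 0 i, eB S 0 (σ0 i), eC S q 0 i), (eA S q 2 i, eB S 1 (σ1 i), eC S q 1 i),
      (eA S q 1 i, eB S 2 (σ2 i), eC S q 2 i)]
  have hT : ∀ i, (T i).length = 3 := by
    intro i
    simp only [T]
    split_ifs <;> rfl
  have hpos : ∀ i, I i → T i = [(eA S q 0 i, eB S 0 (σ0 i), eC S q 1 i),
      (eA S q 1 i, eB S 1 (σ1 i), eC S q 0 i), (eA S q 2 i, eB S 2 (σ2 i), eC S q 2 i)] :=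
    fun i hi => if_pos hi
  have hneg : ∀ i, ¬ I i → T i = [(eA S q 0 i, eB S 0 (σ0 i), eC S q 0 i),
      (eA S q 2 i, eB S 1 (σ1 i), eC S q 1 i), (eA S q 1 i, eB S 2 (σ2 i), eC S q 2 i)] :=
    fun i hi => if_neg hi
  refine ⟨(List.range S.length).flatMap T, ?_, ?_, ?_⟩
  · refine perm_of_cover h.EE_nodup ?_ ?_
    · intro e he
      obtain ⟨i, hi, k, hk, he⟩ := mem_EE.1 he
      have hk' : k = 0 ∨ k = 1 ∨ k = 2 := by omega
      rcases he with rfl | rfl | rfl
      · have : ∃ t ∈ T i, eA S q k i ∈ el t := by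
          by_cases hI : I i
          · rw [hpos i hI]
            rcases hk' with rfl | rfl | rfl
            · exact ⟨_, List.mem_cons_self .., by simp [el]⟩
            · exact ⟨_, List.mem_cons_of_mem _ (List.mem_cons_self ..), by simp [el]⟩
            · exact ⟨_, List.mem_cons_of_mem _ (List.mem_cons_of_mem _ (List.mem_cons_self ..)),
                by simp [el]⟩
          · rw [hneg i hI]
            rcases hk' with rfl | rfl | rfl
            · exact ⟨_, List.mem_cons_self .., by simp [el]⟩
            · exact ⟨_, List.mem_cons_of_mem _ (List.mem_cons_of_mem _ (List.mem_cons_self ..)),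
                by simp [el]⟩
            · exact ⟨_, List.mem_cons_of_mem _ (List.mem_cons_self ..), by simp [el]⟩
        obtain ⟨t, ht, het⟩ := this
        exact ⟨t, List.mem_flatMap.2 ⟨i, List.mem_range.2 hi, ht⟩, het⟩
      · have : ∃ j < S.length, ∃ t ∈ T j, eB S k i ∈ el t := by
          rcases hk' with rfl | rfl | rfl
          · obtain ⟨j, hj, rfl⟩ := t0 i hi
            refine ⟨j, hj, ?_⟩
            by_cases hI : I j
            · rw [hpos j hI]
              exact ⟨_, List.mem_cons_self .., by simp [el]⟩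
            · rw [hneg j hI]
              exact ⟨_, List.mem_cons_self .., by simp [el]⟩
          · obtain ⟨j, hj, rfl⟩ := t1 i hi
            refine ⟨j, hj, ?_⟩
            by_cases hI : I j
            · rw [hpos j hI]
              exact ⟨_, List.mem_cons_of_mem _ (List.mem_cons_self ..), by simp [el]⟩
            · rw [hneg j hI]
              exact ⟨_, List.mem_cons_of_mem _ (List.mem_cons_self ..), by simp [el]⟩
          · obtain ⟨j, hj, rfl⟩ := t2 i hi
            refine ⟨j, hj, ?_⟩
            by_cases hI : I j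
            · rw [hpos j hI]
              exact ⟨_, List.mem_cons_of_mem _ (List.mem_cons_of_mem _ (List.mem_cons_self ..)),
                by simp [el]⟩
            · rw [hneg j hI]
              exact ⟨_, List.mem_cons_of_mem _ (List.mem_cons_of_mem _ (List.mem_cons_self ..)),
                by simp [el]⟩
        obtain ⟨j, hj, t, ht, het⟩ := this
        exact ⟨t, List.mem_flatMap.2 ⟨j, List.mem_range.2 hj, ht⟩, het⟩
      · have : ∃ t ∈ T i, eC S q k i ∈ el t := by
          by_cases hI : I i
          · rw [hpos i hI]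
            rcases hk' with rfl | rfl | rfl
            · exact ⟨_, List.mem_cons_of_mem _ (List.mem_cons_self ..), by simp [el]⟩
            · exact ⟨_, List.mem_cons_self .., by simp [el]⟩
            · exact ⟨_, List.mem_cons_of_mem _ (List.mem_cons_of_mem _ (List.mem_cons_self ..)),
                by simp [el]⟩
          · rw [hneg i hI]
            rcases hk' with rfl | rfl | rfl
            · exact ⟨_, List.mem_cons_self .., by simp [el]⟩
            · exact ⟨_, List.mem_cons_of_mem _ (List.mem_cons_self ..), by simp [el]⟩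
            · exact ⟨_, List.mem_cons_of_mem _ (List.mem_cons_of_mem _ (List.mem_cons_self ..)),
                by simp [el]⟩
        obtain ⟨t, ht, het⟩ := this
        exact ⟨t, List.mem_flatMap.2 ⟨i, List.mem_range.2 hi, ht⟩, het⟩
    · rw [EE_length, List.length_flatMap]
      simp only [hT]
      simp
      omega
  · intro t ht
    obtain ⟨i, -, ht⟩ := List.mem_flatMap.1 ht
    by_cases hI : I i
    · rw [hpos i hI] at ht
      simp only [List.mem_cons, List.not_mem_nil, or_false] at ht
      rcases ht with rfl | rfl | rfl <;> exact ⟨rfl, rfl, rfl⟩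
    · rw [hneg i hI] at ht
      simp only [List.mem_cons, List.not_mem_nil, or_false] at ht
      rcases ht with rfl | rfl | rfl <;> exact ⟨rfl, rfl, rfl⟩
  · intro t ht
    obtain ⟨i, hi, ht⟩ := List.mem_flatMap.1 ht
    rw [List.mem_range] at hi
    obtain ⟨a0, b0, c0⟩ := s0 i hi
    obtain ⟨a1, b1, c1⟩ := s1 i hi
    obtain ⟨a2, b2, c2⟩ := s2 i hi
    by_cases hI : I i
    · have d0 := c0.2 hI
      have d1 := c1.2 hI
      have d2 := c2.2 hI
      rw [hpos i hI] at ht
      simp only [List.mem_cons, List.not_mem_nil, or_false] at ht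
      rcases ht with rfl | rfl | rfl
      · rw [ms_eq a0]
        simp only [bS, cS, aS, if_true, one_ne_zero, if_false, d0, b0]
        ring
      · rw [ms_eq a1]
        simp only [bS, cS, aS, if_true, one_ne_zero, if_false, d1, b1]
        ring
      · rw [ms_eq a2]
        simp only [bS, cS, aS, if_true, OfNat.ofNat_ne_zero, OfNat.ofNat_ne_one, if_false, d2, b2]
        ring
    · have d0 : ¬ rl S 0 (σ0 i) = true := fun h => hI (c0.1 h)
      have d1 : ¬ rl S 1 (σ1 i) = true := fun h => hI (c1.1 h)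
      have d2 : ¬ rl S 2 (σ2 i) = true := fun h => hI (c2.1 h)
      rw [hneg i hI] at ht
      simp only [List.mem_cons, List.not_mem_nil, or_false] at ht
      rcases ht with rfl | rfl | rfl
      · rw [ms_eq a0]
        simp only [bS, cS, aS, if_true, if_false, d0, b0, Bool.false_eq_true]
        ring
      · rw [ms_eq a1]
        simp only [bS, cS, aS, if_true, one_ne_zero, OfNat.ofNat_ne_zero, OfNat.ofNat_ne_one,
          if_false, d1, b1, Bool.false_eq_true]
        ring
      · rw [ms_eq a2]
        simp only [bS, cS, aS, if_true, one_ne_zero, OfNat.ofNat_ne_zero, OfNat.ofNat_ne_one,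
          if_false, d2, b2, Bool.false_eq_true]
        ring

end Pool.Agent.H557R2.Tri
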