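import Mathlib
import Pool.Agent.NPC.Classes

/-!
# Partitioning points into triangles of maximum total perimeter
-/

namespace Pool.Agent.H557R2.Tri

open Pool.Agent.NPC

/-- The point of `ℝ^s` with the given list of rational coordinates. -/
noncomputable def pt (s : ℕ) (l : List ℚ) : EuclideanSpace ℝ (Fin s) :=
  WithLp.toLp 2 fun i => ((l.getD i 0 : ℚ) : ℝ)

/-- The perimeter of the triangle with the given three corners. -/
noncomputable def per (s : ℕ) (t : List ℚ × List ℚ × List ℚ) : ℝ :=
  dist (pt s t.1) (pt s t.2.1) + dist (pt s t.2.1) (pt s t.2.2) + dist (pt s t.2.2) (pt s t.1)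

/-- `P` lists `3 n` distinct points of `ℝ^s` with rational coordinates. -/
def Valid (s : ℕ) (P : List (List ℚ)) : Prop :=
  P.Nodup ∧ (∀ l ∈ P, l.length = s) ∧ 3 ∣ P.length

/-- `π` is a partition of `P` into triples. -/
def IsPart (P : List (List ℚ)) (π : List (List ℚ × List ℚ × List ℚ)) : Prop :=
  (π.flatMap fun t => [t.1, t.2.1, t.2.2]).Perm P

/-- The value of a partition: the sum of the perimeters. -/
noncomputable def val (s : ℕ) (π : List (List ℚ × List ℚ × List ℚ)) : ℝ := (π.map (per s)).sum

/-- The decision version of Euclidean Max-3DM in `ℝ^s`: given the points and a rational bound, is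
there a partition into triples whose value is at least the bound? -/
def Max3DM (s : ℕ) (I : List (List ℚ) × ℚ) : Prop :=
  Valid s I.1 ∧ ∃ π, IsPart I.1 π ∧ (I.2 : ℝ) ≤ val s π

/-- `π` is a partition of `P` of maximum value. -/
def IsOpt (s : ℕ) (P : List (List ℚ)) (π : List (List ℚ × List ℚ × List ℚ)) : Prop :=
  IsPart P π ∧ ∀ π', IsPart P π' → val s π' ≤ val s π

/-- There is a polynomial-time algorithm computing an optimal partition for every instance of
Euclidean Max-3DM in `ℝ^s`. -/
def PolyOpt (s : ℕ) : Prop :=
  ∃ F : List Bool → List Bool, PolyTime F ∧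
    ∀ P : List (List ℚ), Valid s P → ∃ π, F (bits P) = bits π ∧ IsOpt s P π

end Pool.Agent.H557R2.Tri
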