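import Pool.Agent.H557R2.Tri.Main

/-!
# The point set
-/

namespace Pool.Agent.H557R2.Tri

open Pool.Agent.NPC Pool.Agent.NPC.H632

/-- The coordinates of an element, in dimension `n + 2`. -/
def co (n : ℕ) (F L : ℤ) (e : Elt) : List ℚ :=
  ((F * eX L e : ℤ) : ℚ) :: ((F * eY L e : ℤ) : ℚ) :: List.replicate n 0

theorem co_length (n : ℕ) (F L : ℤ) (e : Elt) : (co n F L e).length = n + 2 := by
  simp [co]

theorem dist_co (n : ℕ) {F L : ℤ} (hF : 0 ≤ F) (e e' : Elt) :
    dist (pt (n + 2) (co n F L e)) (pt (n + 2) (co n F L e')) = F * pd L e e' := by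
  rw [EuclideanSpace.dist_eq, Fin.sum_univ_succ, Fin.sum_univ_succ]
  have h0 : ∀ (e : Elt), (pt (n + 2) (co n F L e)) 0 = (F : ℝ) * eX L e := by
    intro e
    simp [pt, co]
  have h1 : ∀ (e : Elt), (pt (n + 2) (co n F L e)) (Fin.succ 0) = (F : ℝ) * eY L e := by
    intro e
    simp [pt, co]
  have h2 : ∀ (e : Elt) (i : Fin n), (pt (n + 2) (co n F L e)) (Fin.succ (Fin.succ i)) = 0 := by
    intro e i
    simp [pt, co]
  simp only [h0, h1, h2, dist_self, ne_eq, OfNat.ofNat_ne_zero, not_false_eq_true, zero_pow,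
    Finset.sum_const_zero, add_zero]
  unfold pd ds
  rw [Real.dist_eq, Real.dist_eq, sq_abs, sq_abs]
  have hF' : (0 : ℝ) ≤ F := by exact_mod_cast hF
  have e1 : ((F : ℝ) * eX L e - F * eX L e') ^ 2 + (F * eY L e - F * eY L e') ^ 2 =
      F ^ 2 * (((eX L e : ℝ) - eX L e') ^ 2 + ((eY L e : ℝ) - eY L e') ^ 2) := by ring
  rw [e1, Real.sqrt_mul (by positivity), Real.sqrt_sq hF']

/-- The triple of points of a triple of elements. -/
def co3 (n : ℕ) (F L : ℤ) (t : Elt × Elt × Elt) : List ℚ × List ℚ × List ℚ :=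
  (co n F L t.1, co n F L t.2.1, co n F L t.2.2)

theorem per_co (n : ℕ) {F L : ℤ} (hF : 0 ≤ F) (t : Elt × Elt × Elt) :
    per (n + 2) (co3 n F L t) = F * perE L t := by
  unfold per co3 perE
  simp only [dist_co n hF]
  ring

theorem val_co (n : ℕ) {F L : ℤ} (hF : 0 ≤ F) (π : List (Elt × Elt × Elt)) :
    val (n + 2) (π.map (co3 n F L)) = F * valE L π := by
  unfold val valE
  induction π with
  | nil => simp
  | cons t π ih =>
    simp only [List.map_cons, List.sum_cons]
    rw [ih, per_co n hF]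
    ring

theorem flatMap_co3 (n : ℕ) (F L : ℤ) (π : List (Elt × Elt × Elt)) :
    (π.map (co3 n F L)).flatMap (fun t => [t.1, t.2.1, t.2.2]) =
      (π.flatMap el).map (co n F L) := by
  induction π with
  | nil => rfl
  | cons t π ih =>
    simp only [List.map_cons, List.flatMap_cons, List.map_append, ih]
    rfl

theorem co_inj {n : ℕ} {F L H : ℤ} (hF : 0 < F) (hL : 24 * H < L) {e e' : Elt}
    (h1 : |e.2| ≤ H) (h2 : |e'.2| ≤ H) (h3 : e.1 < 3) (h4 : e'.1 < 3)
    (h : co n F L e = co n F L e') : e = e' := by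
  unfold co at h
  simp only [List.cons.injEq, Int.cast_inj] at h
  obtain ⟨hx, hy, -⟩ := h
  have hx' := mul_left_cancel₀ hF.ne' hx
  have hy' := mul_left_cancel₀ hF.ne' hy
  have a1 := abs_le.1 h1
  have a2 := abs_le.1 h2
  obtain ⟨c, x⟩ := e
  obtain ⟨d, y⟩ := e'
  simp only at *
  have hc : c = 0 ∨ c = 1 ∨ c = 2 := by omega
  have hd : d = 0 ∨ d = 1 ∨ d = 2 := by omega
  unfold eX at hx'
  unfold eY at hy'
  rcases hc with rfl | rfl | rfl <;> rcases hd with rfl | rfl | rfl <;>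
    simp only [if_true, one_ne_zero, OfNat.ofNat_ne_zero, OfNat.ofNat_ne_one, if_false] at hx' hy' <;>
    first
    | (exfalso; omega)
    | (refine Prod.ext rfl ?_; simp only; omega)

variable {S : List (ℕ × ℕ × ℕ)} {q : ℕ}

/-- The scale. -/
def FF (m q : ℕ) : ℤ := 240 * LL m q

/-- The points. -/
def PP (n : ℕ) (S : List (ℕ × ℕ × ℕ)) (q : ℕ) : List (List ℚ) :=
  (EE S q).map (co n (FF S.length q) (LL S.length q))

/-- The bound. -/
def TT (S : List (ℕ × ℕ × ℕ)) (q : ℕ) : ℚ := (thr (LL S.length q) (TH S.length) (EE S q) : ℤ)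

theorem LL_pos (m q : ℕ) : 24 * HH m q < LL m q := by
  have h1 := (big (m := m) (q := q) (n := 0) (by omega)).hL
  have h2 := (HH_ge m q).2
  have h3 : 2000 * HH m q ≤ LL m q := by exact_mod_cast h1
  linarith

theorem FF_pos (m q : ℕ) : 0 < FF m q := by
  have h1 := LL_pos m q
  have h2 := (HH_ge m q).2
  unfold FF
  linarith

theorem Pr.co_inj (h : Pr S q) {n : ℕ} {e e' : Elt} (he : e ∈ EE S q) (he' : e' ∈ EE S q)
    (hc : co n (FF S.length q) (LL S.length q) e = co n (FF S.length q) (LL S.length q) e') :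
    e = e' :=
  Tri.co_inj (FF_pos _ _) (LL_pos _ _) (h.abs_le he) (h.abs_le he') (h.small he).2 (h.small he').2 hc

theorem Pr.valid (h : Pr S q) (n : ℕ) : Valid (n + 2) (PP n S q) := by
  refine ⟨?_, ?_, ?_⟩
  · exact (List.nodup_map_iff_inj_on h.EE_nodup).2 fun e he e' he' hc => h.co_inj he he' hc
  · intro l hl
    obtain ⟨e, -, rfl⟩ := List.mem_map.1 hl
    exact co_length _ _ _ _
  · unfold PP
    rw [List.length_map, EE_length]
    exact ⟨3 * S.length, by ring⟩

theorem exists_pre (n : ℕ) (F L : ℤ) (E : List Elt) : ∀ π' : List (List ℚ × List ℚ × List ℚ),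
    (∀ p ∈ π'.flatMap (fun t => [t.1, t.2.1, t.2.2]), p ∈ E.map (co n F L)) →
    ∃ π : List (Elt × Elt × Elt), π.map (co3 n F L) = π' ∧ ∀ e ∈ π.flatMap el, e ∈ E
  | [], _ => ⟨[], rfl, by simp⟩
  | t :: π', h => by
    obtain ⟨π, h1, h2⟩ := exists_pre n F L E π' fun p hp => h p (by
      rw [List.flatMap_cons]; exact List.mem_append_right _ hp)
    obtain ⟨a, ha, ha'⟩ := List.mem_map.1 (h t.1 (by simp))
    obtain ⟨b, hb, hb'⟩ := List.mem_map.1 (h t.2.1 (by simp))
    obtain ⟨c, hc, hc'⟩ := List.mem_map.1 (h t.2.2 (by simp))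
    refine ⟨(a, b, c) :: π, ?_, ?_⟩
    · rw [List.map_cons, h1]
      unfold co3
      simp only [ha', hb', hc']
    · intro e he
      rw [List.flatMap_cons, List.mem_append] at he
      rcases he with he | he
      · simp only [el, List.mem_cons, List.not_mem_nil, or_false] at he
        rcases he with rfl | rfl | rfl
        · exact ha
        · exact hb
        · exact hc
      · exact h2 e he

theorem Pr.part_iff (h : Pr S q) (n : ℕ) {π' : List (List ℚ × List ℚ × List ℚ)} :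
    IsPart (PP n S q) π' ↔ ∃ π : List (Elt × Elt × Elt),
      π' = π.map (co3 n (FF S.length q) (LL S.length q)) ∧ (π.flatMap el).Perm (EE S q) := by
  constructor
  · intro hp
    unfold IsPart PP at hp
    obtain ⟨π, h1, h2⟩ := exists_pre n (FF S.length q) (LL S.length q) (EE S q) π' fun p hp' =>
      hp.mem_iff.1 hp'
    refine ⟨π, h1.symm, ?_⟩
    rw [← h1, flatMap_co3] at hp
    have h3 : (π.flatMap el).Nodup :=
      List.Nodup.of_map _ (hp.nodup_iff.2 (h.valid n).1)
    have h4 := hp.length_eq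
    rw [List.length_map, List.length_map] at h4
    exact (List.subperm_of_subset h3 h2).perm_of_length_le (by omega)
  · rintro ⟨π, rfl, hp⟩
    unfold IsPart PP
    rw [flatMap_co3]
    exact hp.map _

theorem Pr.val_ge_iff (h : Pr S q) (n : ℕ) {π : List (Elt × Elt × Elt)}
    (hp : (π.flatMap el).Perm (EE S q)) : ((TT S q : ℚ) : ℝ) ≤
      val (n + 2) (π.map (co3 n (FF S.length q) (LL S.length q))) ↔ ZP S q π := by
  rw [val_co n (FF_pos _ _).le, ← h.thr_iff hp]
  unfold TT FF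
  push_cast
  rfl

/-- **Correctness of the reduction.** -/
theorem Pr.max_iff (h : Pr S q) (n : ℕ) : X3C (S, q) ↔ Max3DM (n + 2) (PP n S q, TT S q) := by
  rw [h.x3c_iff]
  unfold Max3DM
  simp only
  constructor
  · rintro ⟨π, hπ⟩
    exact ⟨h.valid n, _, (h.part_iff n).2 ⟨π, rfl, hπ.1⟩, (h.val_ge_iff n hπ.1).2 hπ⟩
  · rintro ⟨-, π', h1, h2⟩
    obtain ⟨π, rfl, h3⟩ := (h.part_iff n).1 h1
    exact ⟨π, (h.val_ge_iff n h3).1 h2⟩

/-- Optimal partitions tell whether there is an exact cover. -/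
theorem Pr.opt_iff (h : Pr S q) (n : ℕ) {π : List (Elt × Elt × Elt)}
    (ho : IsOpt (n + 2) (PP n S q) (π.map (co3 n (FF S.length q) (LL S.length q))))
    (hp : (π.flatMap el).Perm (EE S q)) : X3C (S, q) ↔ ZP S q π := by
  constructor
  · intro hx
    obtain ⟨π0, h0⟩ := h.x3c_iff.1 hx
    have h1 := (h.val_ge_iff n h0.1).2 h0
    have h2 := ho.2 _ ((h.part_iff n).2 ⟨π0, rfl, h0.1⟩)
    exact (h.val_ge_iff n hp).1 (h1.trans h2)
  · intro hz
    exact h.x3c_iff.2 ⟨π, hz⟩

end Pool.Agent.H557R2.Tri
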