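import Mathlib

/-!
# The second order of the perimeter
-/

namespace Pool.Agent.H557R2.Tri

theorem sqrt_upper {X Y D U : ℝ} (hD : 0 < D) (h1 : |X - D| ≤ U) (hU : 2 * U ≤ D) :
    Real.sqrt (X ^ 2 + Y ^ 2) ≤ X + Y ^ 2 / (2 * D) + Y ^ 2 * U / D ^ 2 := by
  have h2 := abs_le.1 h1
  have hX : D / 2 ≤ X := by linarith
  have hX0 : 0 < X := by linarith
  have hY : 0 ≤ Y ^ 2 := sq_nonneg Y
  have h3 : Real.sqrt (X ^ 2 + Y ^ 2) ≤ X + Y ^ 2 / (2 * X) := by
    rw [Real.sqrt_le_left (by positivity)]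
    have : (X + Y ^ 2 / (2 * X)) ^ 2 = X ^ 2 + Y ^ 2 + (Y ^ 2 / (2 * X)) ^ 2 := by
      field_simp
      ring
    rw [this]
    nlinarith [sq_nonneg (Y ^ 2 / (2 * X))]
  refine h3.trans ?_
  have h4 : 1 / (2 * X) ≤ 1 / (2 * D) + U / D ^ 2 := by
    have h5 : 1 / (2 * X) - 1 / (2 * D) = (D - X) / (2 * D * X) := by
      field_simp
    have h6 : (D - X) / (2 * D * X) ≤ U / D ^ 2 := by
      rw [div_le_div_iff₀ (by positivity) (by positivity)]
      have h7 : D - X ≤ U := by linarith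
      have hU0 : 0 ≤ U := (abs_nonneg _).trans h1
      have h8 : D ^ 2 ≤ 2 * D * X := by nlinarith
      calc (D - X) * D ^ 2 ≤ U * D ^ 2 := by
            apply mul_le_mul_of_nonneg_right h7 (by positivity)
        _ ≤ U * (2 * D * X) := mul_le_mul_of_nonneg_left h8 hU0
    linarith
  have h5 := mul_le_mul_of_nonneg_left h4 hY
  have e1 : Y ^ 2 * (1 / (2 * X)) = Y ^ 2 / (2 * X) := by ring
  have e2 : Y ^ 2 * (1 / (2 * D) + U / D ^ 2) = Y ^ 2 / (2 * D) + Y ^ 2 * U / D ^ 2 := by ring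
  rw [e1, e2] at h5
  linarith

theorem sqrt_lower {X Y D U : ℝ} (hD : 0 < D) (h1 : |X - D| ≤ U) (hU : 2 * U ≤ D)
    (hY : |Y| ≤ D / 2) :
    X + Y ^ 2 / (2 * D) - Y ^ 2 * U / D ^ 2 - Y ^ 4 / D ^ 3 ≤ Real.sqrt (X ^ 2 + Y ^ 2) := by
  have h2 := abs_le.1 h1
  have hX : D / 2 ≤ X := by linarith
  have hX0 : 0 < X := by linarith
  have hYX : Y ^ 2 ≤ X ^ 2 := by
    rw [← sq_abs Y]
    exact pow_le_pow_left₀ (abs_nonneg _) (hY.trans hX) 2
  have hY0 : 0 ≤ Y ^ 2 := sq_nonneg Y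
  have h3 : X + Y ^ 2 / (2 * X) - Y ^ 4 / (8 * X ^ 3) ≤ Real.sqrt (X ^ 2 + Y ^ 2) := by
    apply Real.le_sqrt_of_sq_le
    have e : (X + Y ^ 2 / (2 * X) - Y ^ 4 / (8 * X ^ 3)) ^ 2 =
        X ^ 2 + Y ^ 2 - Y ^ 6 / (64 * X ^ 6) * (8 * X ^ 2 - Y ^ 2) := by
      field_simp
      ring
    rw [e]
    have : 0 ≤ Y ^ 6 / (64 * X ^ 6) * (8 * X ^ 2 - Y ^ 2) := by
      apply mul_nonneg (by positivity)
      nlinarith [sq_nonneg X]
    linarith
  refine le_trans ?_ h3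
  have h4 : 1 / (2 * D) - U / D ^ 2 ≤ 1 / (2 * X) := by
    have h5 : 1 / (2 * D) - 1 / (2 * X) = (X - D) / (2 * D * X) := by
      field_simp
    have h6 : (X - D) / (2 * D * X) ≤ U / D ^ 2 := by
      rw [div_le_div_iff₀ (by positivity) (by positivity)]
      have h7 : X - D ≤ U := by linarith
      have hU0 : 0 ≤ U := (abs_nonneg _).trans h1
      have h8 : D ^ 2 ≤ 2 * D * X := by nlinarith
      calc (X - D) * D ^ 2 ≤ U * D ^ 2 := by
            apply mul_le_mul_of_nonneg_right h7 (by positivity)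
        _ ≤ U * (2 * D * X) := mul_le_mul_of_nonneg_left h8 hU0
    linarith
  have h5 := mul_le_mul_of_nonneg_left h4 hY0
  have e1 : Y ^ 2 * (1 / (2 * X)) = Y ^ 2 / (2 * X) := by ring
  have e2 : Y ^ 2 * (1 / (2 * D) - U / D ^ 2) = Y ^ 2 / (2 * D) - Y ^ 2 * U / D ^ 2 := by ring
  rw [e1, e2] at h5
  have h6 : Y ^ 4 / (8 * X ^ 3) ≤ Y ^ 4 / D ^ 3 := by
    apply div_le_div_of_nonneg_left (by positivity) (by positivity)
    have : D ^ 3 ≤ (2 * X) ^ 3 := pow_le_pow_left₀ hD.le (by linarith) 3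
    nlinarith
  linarith

/-- The two bounds, with a uniform error term. -/
theorem sqrt_bounds {X Y D H L : ℝ} (hH : 1 ≤ H) (hL : 2000 * H ≤ L) (hD : 3 * L ≤ D)
    (h1 : |X - D| ≤ 11 * H) (hY : |Y| ≤ 6 * H) :
    |Real.sqrt (X ^ 2 + Y ^ 2) - (X + Y ^ 2 / (2 * D))| ≤ 400 * H ^ 3 / L ^ 2 := by
  have hL0 : 0 < L := by linarith
  have hD0 : 0 < D := by linarith
  have hup := sqrt_upper (Y := Y) hD0 h1 (by linarith)
  have hlo := sqrt_lower hD0 h1 (by linarith) (hY.trans (by linarith))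
  have hY2 : Y ^ 2 ≤ 36 * H ^ 2 := by
    have := pow_le_pow_left₀ (abs_nonneg _) hY 2
    rw [sq_abs] at this
    linarith
  have hY4 : Y ^ 4 ≤ 1296 * H ^ 4 := by
    have := pow_le_pow_left₀ (sq_nonneg Y) hY2 2
    calc Y ^ 4 = (Y ^ 2) ^ 2 := by ring
      _ ≤ (36 * H ^ 2) ^ 2 := this
      _ = 1296 * H ^ 4 := by ring
  have hLD : L ≤ D := by linarith
  have a1 : Y ^ 2 * (11 * H) / D ^ 2 ≤ 396 * H ^ 3 / L ^ 2 := by
    have h2 : Y ^ 2 * (11 * H) ≤ 396 * H ^ 3 := by nlinarith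
    calc Y ^ 2 * (11 * H) / D ^ 2 ≤ 396 * H ^ 3 / D ^ 2 := by
          apply div_le_div_of_nonneg_right h2 (by positivity)
      _ ≤ 396 * H ^ 3 / L ^ 2 := by
          apply div_le_div_of_nonneg_left (by positivity) (by positivity)
          exact pow_le_pow_left₀ hL0.le hLD 2
  have a2 : Y ^ 4 / D ^ 3 ≤ H ^ 3 / L ^ 2 := by
    have h3 : Y ^ 4 / D ^ 3 ≤ 1296 * H ^ 4 / L ^ 3 := by
      calc Y ^ 4 / D ^ 3 ≤ 1296 * H ^ 4 / D ^ 3 := by
            apply div_le_div_of_nonneg_right hY4 (by positivity)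
        _ ≤ 1296 * H ^ 4 / L ^ 3 := by
            apply div_le_div_of_nonneg_left (by positivity) (by positivity)
            exact pow_le_pow_left₀ hL0.le hLD 3
    refine h3.trans ?_
    rw [div_le_div_iff₀ (by positivity) (by positivity)]
    have : 1296 * H ≤ L := by linarith
    have h4 : 0 ≤ H ^ 3 * L ^ 2 := by positivity
    nlinarith [mul_le_mul_of_nonneg_left this h4]
  have a3 : 396 * H ^ 3 / L ^ 2 + H ^ 3 / L ^ 2 ≤ 400 * H ^ 3 / L ^ 2 := by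
    rw [← add_div]
    apply div_le_div_of_nonneg_right _ (by positivity)
    nlinarith [pow_pos (by linarith : (0 : ℝ) < H) 3]
  have a4 : 0 ≤ Y ^ 4 / D ^ 3 := by positivity
  rw [abs_le]
  constructor <;> linarith

/-- The distance function in coordinates. -/
noncomputable def ds (x y x' y' : ℝ) : ℝ := Real.sqrt ((x - x') ^ 2 + (y - y') ^ 2)

theorem ds_comm (x y x' y' : ℝ) : ds x y x' y' = ds x' y' x y := by
  unfold ds
  congr 1
  ring

theorem ds_le (x y x' y' : ℝ) : ds x y x' y' ≤ |x - x'| + |y - y'| := by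
  unfold ds
  rw [Real.sqrt_le_left (by positivity)]
  have h1 := abs_nonneg (x - x')
  have h2 := abs_nonneg (y - y')
  have h3 := sq_abs (x - x')
  have h4 := sq_abs (y - y')
  nlinarith

/-- **The perimeter of a triangle with one corner near each of the corners of the big
`3`-`4`-`5` triangle.** -/
theorem per_bounds {a b c H L : ℝ} (hH : 1 ≤ H) (hL : 2000 * H ≤ L) (ha : |a| ≤ H) (hb : |b| ≤ H)
    (hc : |c| ≤ H) :
    |ds (3 * a) (4 * a) (4 * L - 3 * b) b + ds (4 * L - 3 * b) b c (3 * L - 7 * c) +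
      ds c (3 * L - 7 * c) (3 * a) (4 * a) -
      ((4 * L - 7 * a + 4 * a ^ 2 / L) + (4 * L - 6 * b + 29 / 40 * b ^ 2 / L) +
        (4 * L - 12 * c + 19 / 6 * c ^ 2 / L) - (a + b + c) ^ 2 / (2 * L))| ≤
      1200 * H ^ 3 / L ^ 2 := by
  have hL0 : 0 < L := by linarith
  have ha' := abs_le.1 ha
  have hb' := abs_le.1 hb
  have hc' := abs_le.1 hc
  have h1 := sqrt_bounds (X := 4 * L - 3 * a - 3 * b) (Y := b - 4 * a) (D := 4 * L) hH hL
    (by linarith) (by rw [abs_le]; constructor <;> linarith) (by rw [abs_le]; constructor <;> linarith)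
  have h2 := sqrt_bounds (X := 3 * L - 7 * c - 4 * a) (Y := c - 3 * a) (D := 3 * L) hH hL
    (by linarith) (by rw [abs_le]; constructor <;> linarith) (by rw [abs_le]; constructor <;> linarith)
  have h3 := sqrt_bounds (X := 5 * L - 5 * c - 3 * b) (Y := b - 5 * c) (D := 5 * L) hH hL
    (by linarith) (by rw [abs_le]; constructor <;> linarith) (by rw [abs_le]; constructor <;> linarith)
  have e1 : ds (3 * a) (4 * a) (4 * L - 3 * b) b =
      Real.sqrt ((4 * L - 3 * a - 3 * b) ^ 2 + (b - 4 * a) ^ 2) := by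
    unfold ds; congr 1; ring
  have e2 : ds c (3 * L - 7 * c) (3 * a) (4 * a) =
      Real.sqrt ((3 * L - 7 * c - 4 * a) ^ 2 + (c - 3 * a) ^ 2) := by
    unfold ds; congr 1; ring
  have e3 : ds (4 * L - 3 * b) b c (3 * L - 7 * c) =
      Real.sqrt ((5 * L - 5 * c - 3 * b) ^ 2 + (b - 5 * c) ^ 2) := by
    unfold ds; congr 1; ring
  rw [e1, e2, e3]
  generalize Real.sqrt ((4 * L - 3 * a - 3 * b) ^ 2 + (b - 4 * a) ^ 2) = s1 at *
  generalize Real.sqrt ((3 * L - 7 * c - 4 * a) ^ 2 + (c - 3 * a) ^ 2) = s2 at *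
  generalize Real.sqrt ((5 * L - 5 * c - 3 * b) ^ 2 + (b - 5 * c) ^ 2) = s3 at *
  have key : s1 + s3 + s2 -
      ((4 * L - 7 * a + 4 * a ^ 2 / L) + (4 * L - 6 * b + 29 / 40 * b ^ 2 / L) +
        (4 * L - 12 * c + 19 / 6 * c ^ 2 / L) - (a + b + c) ^ 2 / (2 * L)) =
      (s1 - (4 * L - 3 * a - 3 * b + (b - 4 * a) ^ 2 / (2 * (4 * L)))) +
      (s2 - (3 * L - 7 * c - 4 * a + (c - 3 * a) ^ 2 / (2 * (3 * L)))) +
      (s3 - (5 * L - 5 * c - 3 * b + (b - 5 * c) ^ 2 / (2 * (5 * L)))) := by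
    field_simp
    ring
  rw [key]
  have h4 : 400 * H ^ 3 / L ^ 2 + 400 * H ^ 3 / L ^ 2 + 400 * H ^ 3 / L ^ 2 =
      1200 * H ^ 3 / L ^ 2 := by ring
  rw [← h4]
  exact (abs_add_three _ _ _).trans (add_le_add (add_le_add h1 h2) h3)

end Pool.Agent.H557R2.Tri
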