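import Pool.Agent.H557R2.Tri.Comb2

/-!
# The threshold
-/

namespace Pool.Agent.H557R2.Tri

open Pool.Agent.NPC Pool.Agent.NPC.H632

variable {S : List (ℕ × ℕ × ℕ)} {q : ℕ}

/-! ### Sorting the triples -/

theorem srt {m : ℕ} {t : Elt × Elt × Elt} (h : Trans t) :
    ∃ t', Ord t' ∧ (el t').Perm (el t) ∧ ms m t' = ms m t := by
  obtain ⟨a, b, c⟩ := t
  unfold ms
  rcases h with ⟨h0, h1, h2⟩ | ⟨h0, h1, h2⟩ | ⟨h0, h1, h2⟩ | ⟨h0, h1, h2⟩ | ⟨h0, h1, h2⟩ |
    ⟨h0, h1, h2⟩ <;> simp only at h0 h1 h2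
  · exact ⟨(a, b, c), ⟨h0, h1, h2⟩, List.Perm.refl _, rfl⟩
  · refine ⟨(a, c, b), ⟨h0, h2, h1⟩, ?_, by simp only; ring⟩
    exact List.Perm.cons _ (List.Perm.swap _ _ _)
  · refine ⟨(b, a, c), ⟨h1, h0, h2⟩, ?_, by simp only; ring⟩
    exact List.Perm.swap _ _ _
  · refine ⟨(c, a, b), ⟨h2, h0, h1⟩, ?_, by simp only; ring⟩
    exact (List.Perm.swap _ _ _).trans (List.Perm.cons _ (List.Perm.swap _ _ _))
  · refine ⟨(b, c, a), ⟨h1, h2, h0⟩, ?_, by simp only; ring⟩
    exact (List.Perm.cons _ (List.Perm.swap _ _ _)).trans (List.Perm.swap _ _ _)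
  · refine ⟨(c, b, a), ⟨h2, h1, h0⟩, ?_, by simp only; ring⟩
    exact ((List.Perm.swap _ _ _).trans (List.Perm.cons _ (List.Perm.swap _ _ _))).trans
      (List.Perm.swap _ _ _)

theorem srt_list {m : ℕ} : ∀ (π : List (Elt × Elt × Elt)), (∀ t ∈ π, Trans t ∧ ms m t = 0) →
    ∃ π' : List (Elt × Elt × Elt), (π'.flatMap el).Perm (π.flatMap el) ∧ (∀ t ∈ π', Ord t) ∧
      ∀ t ∈ π', ms m t = 0
  | [], _ => ⟨[], List.Perm.refl _, by simp, by simp⟩
  | t :: π, h => by
    obtain ⟨π', h1, h2, h3⟩ := srt_list π fun t ht => h t (List.mem_cons_of_mem _ ht)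
    obtain ⟨t', h4, h5, h6⟩ := srt (m := m) (h t (List.mem_cons_self ..)).1
    refine ⟨t' :: π', ?_, ?_, ?_⟩
    · rw [List.flatMap_cons, List.flatMap_cons]
      exact h5.append h1
    · intro s hs
      rcases List.mem_cons.1 hs with rfl | hs
      · exact h4
      · exact h2 s hs
    · intro s hs
      rcases List.mem_cons.1 hs with rfl | hs
      · rw [h6]; exact (h t (List.mem_cons_self ..)).2
      · exact h3 s hs

/-- Partitions into transversal triples of sum zero. -/
def ZP (S : List (ℕ × ℕ × ℕ)) (q : ℕ) (π : List (Elt × Elt × Elt)) : Prop :=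
  (π.flatMap el).Perm (EE S q) ∧ ∀ t ∈ π, Trans t ∧ ms S.length t = 0

theorem Pr.x3c_iff (h : Pr S q) : X3C (S, q) ↔ ∃ π, ZP S q π := by
  constructor
  · intro hx
    obtain ⟨π, h1, h2, h3⟩ := h.of_x3c hx
    exact ⟨π, h1, fun t ht => ⟨Or.inl (h2 t ht), h3 t ht⟩⟩
  · rintro ⟨π, h1, h2⟩
    obtain ⟨π', h3, h4, h5⟩ := srt_list π h2
    exact h.to_x3c (h3.trans h1) h4 h5

/-! ### Sizes -/

/-- The bound for the heights. -/
def HH (m q : ℕ) : ℤ := RR m * (KK q * (m + 2) + 1)

/-- The size of the big triangle. -/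
def LL (m q : ℕ) : ℤ := 2400 * (3 * m + 1) * (HH m q * HH m q * HH m q)

/-- The bound for the sum of squares. -/
def TH (m : ℕ) : ℤ := 3 * m * (m * m)

theorem HH_ge (m q : ℕ) : RR m ≤ HH m q ∧ 1 ≤ HH m q := by
  have h1 := RR_pos m
  have h2 : 0 < KK q := by unfold KK; omega
  have h3 : (0 : ℤ) ≤ m := Int.natCast_nonneg m
  have h4 : 1 ≤ KK q * (m + 2) + 1 := by nlinarith
  have h5 : RR m ≤ HH m q := by
    unfold HH
    nlinarith
  exact ⟨h5, by linarith⟩

theorem Pr.abs_le (h : Pr S q) {e : Elt} (he : e ∈ EE S q) : |e.2| ≤ HH S.length q := by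
  obtain ⟨i, hi, k, hk, he⟩ := mem_EE.1 he
  have hR := RR_pos S.length
  have hR0 : 0 ≤ RR S.length := by omega
  have hi' : (i : ℤ) + 1 ≤ S.length := by exact_mod_cast hi
  have hi0 : (0 : ℤ) ≤ i := Int.natCast_nonneg i
  have hK : 0 < KK q := by unfold KK; omega
  have h1 : KK q * (i + 1) ≤ KK q * S.length := mul_le_mul_of_nonneg_left hi' hK.le
  have h0 : 0 ≤ KK q * (i + 1) := by positivity
  have e1 : KK q * ((S.length : ℤ) + 2) = KK q * S.length + 2 * KK q := by ring
  have e2 : KK q = 384 * q + 384 := by unfold KK; ring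
  rcases he with rfl | rfl | rfl
  · simp only [eA]
    rw [abs_mul, abs_of_nonneg hR0]
    unfold HH
    refine mul_le_mul_of_nonneg_left ?_ hR0
    have a1 := h.aS_b hi k
    rw [_root_.abs_le]
    constructor <;> linarith
  · simp only [eB]
    have a1 := h.bS_b hi k
    have a2 : RR S.length * bS S k i ≤ RR S.length * (96 * q + 20) :=
      mul_le_mul_of_nonneg_left a1.2 hR0
    have a3 : 0 ≤ RR S.length * bS S k i := mul_nonneg hR0 a1.1
    have a4 : RR S.length * (96 * q + 21) ≤ HH S.length q := by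
      unfold HH
      refine mul_le_mul_of_nonneg_left ?_ hR0
      have : 0 ≤ KK q * (S.length : ℤ) := by positivity
      linarith
    rw [_root_.abs_le]
    constructor <;> linarith
  · simp only [eC]
    rw [abs_mul, abs_of_nonneg hR0]
    unfold HH
    refine mul_le_mul_of_nonneg_left ?_ hR0
    have a1 := h.cS_b hi k
    rw [_root_.abs_le]
    constructor <;> linarith

theorem Pr.small (h : Pr S q) {e : Elt} (he : e ∈ EE S q) : Small (HH S.length q) e := by
  refine ⟨by exact_mod_cast h.abs_le he, ?_⟩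
  obtain ⟨i, hi, k, hk, rfl | rfl | rfl⟩ := mem_EE.1 he
  · simp [eA]
  · simp [eB]
  · simp [eC]

theorem cube_ge {m q : ℕ} : HH m q ≤ HH m q * HH m q * HH m q := by
  have h := (HH_ge m q).2
  nlinarith [mul_nonneg (by linarith : 0 ≤ HH m q) (by nlinarith : 0 ≤ HH m q * HH m q - 1)]

theorem big {m q n : ℕ} (hn : n ≤ 3 * m) : Big (LL m q) (TH m) (HH m q) n where
  hH := by exact_mod_cast (HH_ge m q).2
  hL := by
    have h1 := cube_ge (m := m) (q := q)
    have h2 := (HH_ge m q).2
    have h3 : 2000 * HH m q ≤ LL m q := by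
      unfold LL
      have h4 : (0 : ℤ) ≤ m := Int.natCast_nonneg m
      nlinarith [mul_nonneg h4 (by linarith : 0 ≤ HH m q * HH m q * HH m q)]
    exact_mod_cast h3
  hn := by
    have h1 := cube_ge (m := m) (q := q)
    have h2 := (HH_ge m q).2
    have h3 : 2400 * (n : ℤ) * HH m q ^ 3 ≤ LL m q := by
      unfold LL
      have h4 : (n : ℤ) ≤ 3 * m := by exact_mod_cast hn
      have h5 : 2400 * (n : ℤ) * HH m q ^ 3 = 2400 * n * (HH m q * HH m q * HH m q) := by ring
      rw [h5]
      exact mul_le_mul_of_nonneg_right (by linarith) (by linarith)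
    exact_mod_cast h3
  hθ := by
    have h1 := cube_ge (m := m) (q := q)
    obtain ⟨h0, h2⟩ := HH_ge m q
    have h4 : (0 : ℤ) ≤ m := Int.natCast_nonneg m
    have h5 : RR m * RR m * RR m ≤ HH m q * HH m q * HH m q := by
      have := RR_pos m
      have a1 : RR m * RR m ≤ HH m q * HH m q := mul_le_mul h0 h0 (by linarith) (by linarith)
      exact mul_le_mul a1 h0 (by linarith) (by nlinarith)
    have h6 : ((m : ℤ) + 1) * (m + 1) * (m + 1) ≤ RR m * RR m * RR m := by
      have := RR_pos m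
      have a1 : ((m : ℤ) + 1) * (m + 1) ≤ RR m * RR m :=
        mul_le_mul (by linarith) (by linarith) (by linarith) (by linarith)
      exact mul_le_mul a1 (by linarith) (by linarith) (by nlinarith)
    unfold TH LL
    have h7 : 2400 * (((m : ℤ) + 1) * (m + 1) * (m + 1)) ≤
        2400 * (3 * m + 1) * (HH m q * HH m q * HH m q) := by
      have h8 : 0 ≤ HH m q * HH m q * HH m q := by linarith
      nlinarith [mul_nonneg h4 h8]
    nlinarith

theorem exists_rem {e : Elt} (he : e ∈ EE S q) (hne : S ≠ []) : ∃ d : ℤ, 0 ≤ d ∧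
    d ≤ (S.length : ℤ) - 1 ∧ e.2 = RR S.length * mn S.length e + d ∧ (e.1 ≠ 1 → d = 0) := by
  have hm : 0 < S.length := List.length_pos_iff.2 hne
  obtain ⟨i, hi, k, hk, rfl | rfl | rfl⟩ := mem_EE.1 he
  · refine ⟨0, le_rfl, by omega, ?_, fun _ => rfl⟩
    rw [mn_eA, add_zero]; rfl
  · refine ⟨i, Int.natCast_nonneg i, by omega, ?_, fun h => absurd rfl h⟩
    rw [mn_eB hi]; rfl
  · refine ⟨0, le_rfl, by omega, ?_, fun _ => rfl⟩
    rw [mn_eC, add_zero]; rfl

theorem hs_eq {t : Elt × Elt × Elt} (ht : ∀ e ∈ el t, e ∈ EE S q) (hne : S ≠ [])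
    (htr : Trans t) : ∃ d : ℤ, 0 ≤ d ∧ d ≤ (S.length : ℤ) - 1 ∧
      hs t = RR S.length * ms S.length t + d := by
  obtain ⟨d1, a1, b1, c1, e1⟩ := exists_rem (ht t.1 (by simp [el])) hne
  obtain ⟨d2, a2, b2, c2, e2⟩ := exists_rem (ht t.2.1 (by simp [el])) hne
  obtain ⟨d3, a3, b3, c3, e3⟩ := exists_rem (ht t.2.2 (by simp [el])) hne
  refine ⟨d1 + d2 + d3, by linarith, ?_, ?_⟩
  · rcases htr with ⟨h0, h1, h2⟩ | ⟨h0, h1, h2⟩ | ⟨h0, h1, h2⟩ | ⟨h0, h1, h2⟩ | ⟨h0, h1, h2⟩ |
      ⟨h0, h1, h2⟩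
    · have := e1 (by omega); have := e3 (by omega); omega
    · have := e1 (by omega); have := e2 (by omega); omega
    · have := e2 (by omega); have := e3 (by omega); omega
    · have := e2 (by omega); have := e3 (by omega); omega
    · have := e1 (by omega); have := e2 (by omega); omega
    · have := e1 (by omega); have := e3 (by omega); omega
  · unfold hs ms
    rw [c1, c2, c3]
    ring

theorem len_eq {π : List (Elt × Elt × Elt)} (hp : (π.flatMap el).Perm (EE S q)) :
    π.length = 3 * S.length := by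
  have h1 := hp.length_eq
  rw [length_flatMap_el, EE_length] at h1
  omega

/-- **The threshold.** -/
theorem Pr.thr_iff (h : Pr S q) {π : List (Elt × Elt × Elt)} (hp : (π.flatMap el).Perm (EE S q)) :
    ((thr (LL S.length q) (TH S.length) (EE S q) : ℤ) : ℝ) ≤
      240 * (LL S.length q : ℝ) * valE (LL S.length q) π ↔ ZP S q π := by
  have hmem : ∀ t ∈ π, ∀ e ∈ el t, e ∈ EE S q := fun t ht e he =>
    hp.mem_iff.1 (List.mem_flatMap.2 ⟨t, ht, he⟩)
  have hlen := len_eq hp
  have hb : Big (LL S.length q) (TH S.length) (HH S.length q) π.length := big hlen.le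
  have hm : 0 < S.length := List.length_pos_iff.2 h.ne
  have hm' : (1 : ℤ) ≤ S.length := by exact_mod_cast hm
  constructor
  · intro hv
    obtain ⟨h1, h2⟩ := thr_down (θ := TH S.length) (by unfold TH; positivity) hb
      (fun e he => h.small he) hp hv
    refine ⟨hp, fun t ht => ⟨h1 t ht, ?_⟩⟩
    obtain ⟨d, d0, d1, hd⟩ := hs_eq (hmem t ht) h.ne (h1 t ht)
    have h3 : hs t ^ 2 ≤ QE π := by
      unfold QE
      exact List.single_le_sum (by
        intro x hx
        obtain ⟨s, -, rfl⟩ := List.mem_map.1 hx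
        exact sq_nonneg _) _ (List.mem_map_of_mem (f := fun t => hs t ^ 2) ht)
    by_contra hne
    have h4 : 1 ≤ |ms S.length t| := Int.one_le_abs hne
    have hR : RR S.length = 4 * ((S.length + 1) * (S.length + 1)) := rfl
    have h5 : 3 * (((S.length : ℤ) + 1) * (S.length + 1)) ≤ |hs t| := by
      rw [hd]
      have h6 : |RR S.length * ms S.length t| = RR S.length * |ms S.length t| := by
        rw [abs_mul, abs_of_nonneg (by rw [hR]; positivity)]
      have h7 := abs_sub_abs_le_abs_sub (RR S.length * ms S.length t) (-d)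
      rw [sub_neg_eq_add, abs_neg, abs_of_nonneg d0, h6] at h7
      have h8 : RR S.length ≤ RR S.length * |ms S.length t| :=
        le_mul_of_one_le_right (by rw [hR]; positivity) h4
      nlinarith
    have h6 : (3 * (((S.length : ℤ) + 1) * (S.length + 1))) ^ 2 ≤ hs t ^ 2 := by
      rw [← sq_abs (hs t)]
      exact pow_le_pow_left₀ (by positivity) h5 2
    unfold TH at h2
    have h7 : (9 : ℤ) * ((S.length * S.length) * (S.length * S.length)) + 9 ≤
        (3 * (((S.length : ℤ) + 1) * (S.length + 1))) ^ 2 := by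
      nlinarith [mul_nonneg (by linarith : (0 : ℤ) ≤ S.length) (by linarith : (0 : ℤ) ≤ S.length),
        mul_nonneg (mul_nonneg (by linarith : (0 : ℤ) ≤ S.length)
          (by linarith : (0 : ℤ) ≤ S.length)) (by linarith : (0 : ℤ) ≤ S.length)]
    have h8 : (3 : ℤ) * S.length * (S.length * S.length) ≤
        9 * ((S.length * S.length) * (S.length * S.length)) := by
      have : (0 : ℤ) ≤ S.length * (S.length * S.length) := by positivity
      nlinarith
    linarith
  · rintro ⟨-, hz⟩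
    refine thr_up hb (fun e he => h.small he) hp (fun t ht => (hz t ht).1) ?_
    have h1 : ∀ t ∈ π, hs t ^ 2 ≤ (S.length : ℤ) * S.length := by
      intro t ht
      obtain ⟨d, d0, d1, hd⟩ := hs_eq (hmem t ht) h.ne (hz t ht).1
      rw [(hz t ht).2, mul_zero, zero_add] at hd
      rw [hd]
      nlinarith
    have h2 : QE π ≤ π.length * ((S.length : ℤ) * S.length) := by
      unfold QE
      clear hz hmem hlen hb hp
      induction π with
      | nil => simp
      | cons t π ih =>
        have h3 := ih fun t ht => h1 t (List.mem_cons_of_mem _ ht)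
        have h4 := h1 t (List.mem_cons_self ..)
        simp only [List.map_cons, List.sum_cons, List.length_cons]
        push_cast
        linarith
    rw [hlen] at h2
    unfold TH
    push_cast at h2
    linarith

end Pool.Agent.H557R2.Tri
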