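import Pool.Agent.H557R2.Tri.Defs
import Pool.Agent.H557R2.Tri.Geo
import Pool.Agent.H632R2.X3C

/-!
# Points near the corners of a big `3`-`4`-`5` triangle
-/

namespace Pool.Agent.H557R2.Tri

open Pool.Agent.NPC Pool.Agent.NPC.H632

/-- An element: the number of its cluster and its height. -/
abbrev Elt : Type := ℕ × ℤ

/-- The abscissa. -/
def eX (L : ℤ) (e : Elt) : ℤ :=
  if e.1 = 0 then 3 * e.2 else if e.1 = 1 then 4 * L - 3 * e.2 else e.2
/-- The ordinate. -/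
def eY (L : ℤ) (e : Elt) : ℤ :=
  if e.1 = 0 then 4 * e.2 else if e.1 = 1 then e.2 else 3 * L - 7 * e.2

/-- The distance, before scaling. -/
noncomputable def pd (L : ℤ) (e e' : Elt) : ℝ := ds (eX L e) (eY L e) (eX L e') (eY L e')

/-- The perimeter, before scaling. -/
noncomputable def perE (L : ℤ) (t : Elt × Elt × Elt) : ℝ :=
  pd L t.1 t.2.1 + pd L t.2.1 t.2.2 + pd L t.2.2 t.1

/-- The separable part of the perimeter. -/
noncomputable def sep (L : ℤ) (e : Elt) : ℝ :=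
  if e.1 = 0 then 4 * L - 7 * e.2 + 4 * (e.2 : ℝ) ^ 2 / L
  else if e.1 = 1 then 4 * L - 6 * e.2 + 29 / 40 * (e.2 : ℝ) ^ 2 / L
  else 4 * L - 12 * e.2 + 19 / 6 * (e.2 : ℝ) ^ 2 / L

theorem pd_comm (L : ℤ) (e e' : Elt) : pd L e e' = pd L e' e := ds_comm _ _ _ _

/-- A triple has one element in each cluster. -/
def Trans (t : Elt × Elt × Elt) : Prop :=
  (t.1.1 = 0 ∧ t.2.1.1 = 1 ∧ t.2.2.1 = 2) ∨ (t.1.1 = 0 ∧ t.2.1.1 = 2 ∧ t.2.2.1 = 1) ∨
  (t.1.1 = 1 ∧ t.2.1.1 = 0 ∧ t.2.2.1 = 2) ∨ (t.1.1 = 1 ∧ t.2.1.1 = 2 ∧ t.2.2.1 = 0) ∨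
  (t.1.1 = 2 ∧ t.2.1.1 = 0 ∧ t.2.2.1 = 1) ∨ (t.1.1 = 2 ∧ t.2.1.1 = 1 ∧ t.2.2.1 = 0)

/-- The sum of the heights. -/
def hs (t : Elt × Elt × Elt) : ℤ := t.1.2 + t.2.1.2 + t.2.2.2

theorem per_trans_aux {L : ℤ} {H : ℝ} (hH : 1 ≤ H) (hL : 2000 * H ≤ L) {a b c : Elt}
    (ha : |(a.2 : ℝ)| ≤ H) (hb : |(b.2 : ℝ)| ≤ H) (hc : |(c.2 : ℝ)| ≤ H) (h0 : a.1 = 0)
    (h1 : b.1 = 1) (h2 : c.1 = 2) :
    |pd L a b + pd L b c + pd L c a - (sep L a + sep L b + sep L c -
      ((a.2 + b.2 + c.2 : ℤ) : ℝ) ^ 2 / (2 * L))| ≤ 1200 * H ^ 3 / (L : ℝ) ^ 2 := by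
  have h := per_bounds hH hL ha hb hc
  have e1 : pd L a b = ds (3 * a.2) (4 * a.2) (4 * L - 3 * b.2) b.2 := by
    simp [pd, eX, eY, h0, h1]
  have e2 : pd L b c = ds (4 * L - 3 * b.2) b.2 c.2 (3 * L - 7 * c.2) := by
    simp [pd, eX, eY, h1, h2]
  have e3 : pd L c a = ds c.2 (3 * L - 7 * c.2) (3 * a.2) (4 * a.2) := by
    simp [pd, eX, eY, h0, h2]
  have e4 : sep L a = 4 * L - 7 * a.2 + 4 * (a.2 : ℝ) ^ 2 / L := by simp [sep, h0]
  have e5 : sep L b = 4 * L - 6 * b.2 + 29 / 40 * (b.2 : ℝ) ^ 2 / L := by simp [sep, h1]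
  have e6 : sep L c = 4 * L - 12 * c.2 + 19 / 6 * (c.2 : ℝ) ^ 2 / L := by simp [sep, h2]
  rw [e1, e2, e3, e4, e5, e6]
  push_cast
  exact h

theorem per_trans {L : ℤ} {H : ℝ} (hH : 1 ≤ H) (hL : 2000 * H ≤ L) {t : Elt × Elt × Elt}
    (ha : |(t.1.2 : ℝ)| ≤ H) (hb : |(t.2.1.2 : ℝ)| ≤ H) (hc : |(t.2.2.2 : ℝ)| ≤ H)
    (ht : Trans t) :
    |perE L t - (sep L t.1 + sep L t.2.1 + sep L t.2.2 - ((hs t : ℤ) : ℝ) ^ 2 / (2 * L))| ≤
      1200 * H ^ 3 / (L : ℝ) ^ 2 := by
  obtain ⟨p, q, r⟩ := t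
  unfold perE hs
  simp only at *
  rcases ht with ⟨h0, h1, h2⟩ | ⟨h0, h1, h2⟩ | ⟨h0, h1, h2⟩ | ⟨h0, h1, h2⟩ | ⟨h0, h1, h2⟩ |
    ⟨h0, h1, h2⟩ <;> simp only at h0 h1 h2
  · exact per_trans_aux hH hL ha hb hc h0 h1 h2
  · have := per_trans_aux hH hL ha hc hb h0 h2 h1
    rw [pd_comm L p r, pd_comm L r q, pd_comm L q p] at this
    refine le_of_eq_of_le (congrArg _ ?_) this
    push_cast; ring
  · have := per_trans_aux hH hL hb ha hc h1 h0 h2
    rw [pd_comm L q p, pd_comm L p r, pd_comm L r q] at this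
    refine le_of_eq_of_le (congrArg _ ?_) this
    push_cast; ring
  · have := per_trans_aux hH hL hc ha hb h2 h0 h1
    refine le_of_eq_of_le (congrArg _ ?_) this
    push_cast; ring
  · have := per_trans_aux hH hL hb hc ha h1 h2 h0
    refine le_of_eq_of_le (congrArg _ ?_) this
    push_cast; ring
  · have := per_trans_aux hH hL hc hb ha h2 h1 h0
    rw [pd_comm L r q, pd_comm L q p, pd_comm L p r] at this
    refine le_of_eq_of_le (congrArg _ ?_) this
    push_cast; ring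

/-- The distances within a cluster are small. -/
theorem pd_le_same {L : ℤ} {H : ℝ} {e e' : Elt} (he : |(e.2 : ℝ)| ≤ H)
    (he' : |(e'.2 : ℝ)| ≤ H) (h3 : e.1 < 3) (h : e.1 = e'.1) : pd L e e' ≤ 16 * H := by
  have h1 := abs_le.1 he
  have h2 := abs_le.1 he'
  have h4 : e.1 = 0 ∨ e.1 = 1 ∨ e.1 = 2 := by omega
  unfold pd
  refine (ds_le _ _ _ _).trans ?_
  rcases h4 with h4 | h4 | h4
  · have h5 : e'.1 = 0 := h ▸ h4
    simp only [eX, eY, h4, h5, if_true]
    push_cast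
    have a1 : |3 * (e.2 : ℝ) - 3 * e'.2| ≤ 6 * H := by rw [abs_le]; constructor <;> linarith
    have a2 : |4 * (e.2 : ℝ) - 4 * e'.2| ≤ 8 * H := by rw [abs_le]; constructor <;> linarith
    linarith
  · have h5 : e'.1 = 1 := h ▸ h4
    simp only [eX, eY, h4, h5, if_true, one_ne_zero, if_false]
    push_cast
    have a1 : |4 * (L : ℝ) - 3 * e.2 - (4 * L - 3 * e'.2)| ≤ 6 * H := by
      rw [abs_le]; constructor <;> linarith
    have a2 : |(e.2 : ℝ) - e'.2| ≤ 2 * H := by rw [abs_le]; constructor <;> linarith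
    linarith
  · have h5 : e'.1 = 2 := h ▸ h4
    simp only [eX, eY, h4, h5, OfNat.ofNat_ne_zero, OfNat.ofNat_ne_one, if_false]
    push_cast
    have a1 : |(e.2 : ℝ) - e'.2| ≤ 2 * H := by rw [abs_le]; constructor <;> linarith
    have a2 : |3 * (L : ℝ) - 7 * e.2 - (3 * L - 7 * e'.2)| ≤ 14 * H := by
      rw [abs_le]; constructor <;> linarith
    linarith

theorem pd_le_aux {L : ℤ} {H : ℝ} (hL : 24 * H ≤ L) {e e' : Elt}
    (he : |(e.2 : ℝ)| ≤ H) (he' : |(e'.2 : ℝ)| ≤ H) (h3 : e'.1 < 3) (h : e.1 < e'.1) :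
    pd L e e' ≤ 5 * L + 24 * H := by
  have h1 := abs_le.1 he
  have h2 := abs_le.1 he'
  have hH : 0 ≤ H := (abs_nonneg _).trans he
  have h4 : (e.1 = 0 ∧ e'.1 = 1) ∨ (e.1 = 0 ∧ e'.1 = 2) ∨ (e.1 = 1 ∧ e'.1 = 2) := by omega
  rcases h4 with ⟨h4, h5⟩ | ⟨h4, h5⟩ | ⟨h4, h5⟩
  · refine (ds_le _ _ _ _).trans ?_
    simp only [eX, eY, h4, h5, if_true, one_ne_zero, if_false]
    push_cast
    have a1 : |3 * (e.2 : ℝ) - (4 * L - 3 * e'.2)| ≤ 4 * L + 6 * H := by
      rw [abs_le]; constructor <;> linarith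
    have a2 : |4 * (e.2 : ℝ) - e'.2| ≤ 5 * H := by rw [abs_le]; constructor <;> linarith
    linarith
  · refine (ds_le _ _ _ _).trans ?_
    simp only [eX, eY, h4, h5, if_true, OfNat.ofNat_ne_zero, OfNat.ofNat_ne_one, if_false]
    push_cast
    have a1 : |3 * (e.2 : ℝ) - e'.2| ≤ 4 * H := by rw [abs_le]; constructor <;> linarith
    have a2 : |4 * (e.2 : ℝ) - (3 * L - 7 * e'.2)| ≤ 3 * L + 11 * H := by
      rw [abs_le]; constructor <;> linarith
    linarith
  · have e3 : pd L e e' = ds (5 * L - 5 * e'.2 - 3 * e.2) e.2 0 (5 * e'.2) := by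
      unfold pd ds
      simp only [eX, eY, h4, h5, if_true, one_ne_zero, OfNat.ofNat_ne_zero, OfNat.ofNat_ne_one,
        if_false]
      congr 1
      push_cast
      ring
    rw [e3]
    refine (ds_le _ _ _ _).trans ?_
    have a1 : |5 * (L : ℝ) - 5 * e'.2 - 3 * e.2 - 0| ≤ 5 * L + 8 * H := by
      rw [abs_le]; constructor <;> linarith
    have a2 : |(e.2 : ℝ) - 5 * e'.2| ≤ 6 * H := by rw [abs_le]; constructor <;> linarith
    linarith

/-- All distances are at most `5 L`, approximately. -/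
theorem pd_le {L : ℤ} {H : ℝ} (hL : 24 * H ≤ L) {e e' : Elt} (he : |(e.2 : ℝ)| ≤ H)
    (he' : |(e'.2 : ℝ)| ≤ H) (h3 : e.1 < 3) (h3' : e'.1 < 3) : pd L e e' ≤ 5 * L + 24 * H := by
  have hH : 0 ≤ H := (abs_nonneg _).trans he
  rcases lt_trichotomy e.1 e'.1 with h | h | h
  · exact pd_le_aux hL he he' h3' h
  · have := pd_le_same (L := L) he he' h3 h
    linarith
  · rw [pd_comm]
    exact pd_le_aux hL he' he h3 h

/-- Triples that are not transversal have a smaller perimeter. -/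
theorem per_not_trans {L : ℤ} {H : ℝ} (hL : 24 * H ≤ L) {t : Elt × Elt × Elt}
    (ha : |(t.1.2 : ℝ)| ≤ H) (hb : |(t.2.1.2 : ℝ)| ≤ H) (hc : |(t.2.2.2 : ℝ)| ≤ H)
    (h1 : t.1.1 < 3) (h2 : t.2.1.1 < 3) (h3 : t.2.2.1 < 3) (ht : ¬ Trans t) :
    perE L t ≤ 10 * L + 64 * H := by
  have hs : t.1.1 = t.2.1.1 ∨ t.2.1.1 = t.2.2.1 ∨ t.2.2.1 = t.1.1 := by
    unfold Trans at ht
    omega
  have b1 := pd_le hL ha hb h1 h2
  have b2 := pd_le hL hb hc h2 h3
  have b3 := pd_le hL hc ha h3 h1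
  unfold perE
  rcases hs with h | h | h
  · have := pd_le_same (L := L) ha hb h1 h
    linarith
  · have := pd_le_same (L := L) hb hc h2 h
    linarith
  · have := pd_le_same (L := L) hc ha h3 h
    linarith

/-! ### Values of partitions -/

/-- The value, before scaling. -/
noncomputable def valE (L : ℤ) (π : List (Elt × Elt × Elt)) : ℝ := (π.map (perE L)).sum

/-- The sum of the squares of the sums of heights. -/
def QE (π : List (Elt × Elt × Elt)) : ℤ := (π.map fun t => hs t ^ 2).sum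

/-- All the elements of the triples have small heights and are in one of the three clusters. -/
def Small (H : ℝ) (e : Elt) : Prop := |(e.2 : ℝ)| ≤ H ∧ e.1 < 3

theorem sum_sep (L : ℤ) (π : List (Elt × Elt × Elt)) :
    ((π.flatMap el).map (sep L)).sum =
      (π.map fun t => sep L t.1 + sep L t.2.1 + sep L t.2.2).sum := by
  induction π with
  | nil => rfl
  | cons t π ih =>
    rw [List.flatMap_cons, List.map_append, List.sum_append, ih]
    simp only [el, List.map_cons, List.map_nil, List.sum_cons, List.sum_nil]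
    ring

theorem val_trans {L : ℤ} {H : ℝ} (hH : 1 ≤ H) (hL : 2000 * H ≤ L)
    (π : List (Elt × Elt × Elt)) (h : ∀ e ∈ π.flatMap el, Small H e) (ht : ∀ t ∈ π, Trans t) :
    |valE L π - (((π.flatMap el).map (sep L)).sum - (QE π : ℝ) / (2 * L))| ≤
      π.length * (1200 * H ^ 3 / (L : ℝ) ^ 2) := by
  rw [sum_sep]
  induction π with
  | nil => simp [valE, QE]
  | cons t π ih =>
    have ih' := ih (fun e he => h e (by rw [List.flatMap_cons]; exact List.mem_append_right _ he))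
      (fun t ht' => ht t (List.mem_cons_of_mem _ ht'))
    have hm : ∀ e ∈ el t, Small H e := fun e he =>
      h e (by rw [List.flatMap_cons]; exact List.mem_append_left _ he)
    have h1 := per_trans hH hL (hm t.1 (by simp [el])).1 (hm t.2.1 (by simp [el])).1
      (hm t.2.2 (by simp [el])).1 (ht t (List.mem_cons_self ..))
    unfold valE QE at *
    simp only [List.map_cons, List.sum_cons, List.length_cons, Int.cast_add, Int.cast_pow,
      Nat.cast_add, Nat.cast_one]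
    have h2 := abs_le.1 ih'
    have h3 := abs_le.1 h1
    generalize (1200 * H ^ 3 / (L : ℝ) ^ 2) = ε at *
    have e1 : ((hs t : ℝ) ^ 2 + ((π.map fun t => hs t ^ 2).sum : ℤ)) / (2 * L) =
      (hs t : ℝ) ^ 2 / (2 * L) + ((π.map fun t => hs t ^ 2).sum : ℤ) / (2 * L) := by ring
    rw [e1, abs_le]
    constructor <;> linarith

theorem sep_le {L : ℤ} {H : ℝ} (hL : 2000 * H ≤ L) (hH : 1 ≤ H) {e : Elt} (he : Small H e) :
    sep L e ≤ 4 * L + 13 * H ∧ 4 * L - 12 * H ≤ sep L e := by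
  have hL0 : (0 : ℝ) < L := by linarith
  have h1 := abs_le.1 he.1
  have h2 : 0 ≤ (e.2 : ℝ) ^ 2 := sq_nonneg _
  have h3 : (e.2 : ℝ) ^ 2 ≤ H ^ 2 := by
    have := pow_le_pow_left₀ (abs_nonneg _) he.1 2
    rwa [sq_abs] at this
  have h4 : (e.2 : ℝ) ^ 2 / L ≤ H / 2000 := by
    rw [div_le_iff₀ hL0]
    nlinarith
  have h5 : 0 ≤ (e.2 : ℝ) ^ 2 / L := by positivity
  have h6 : e.1 = 0 ∨ e.1 = 1 ∨ e.1 = 2 := by have := he.2; omega
  rcases h6 with h6 | h6 | h6
  · have e1 : sep L e = 4 * L - 7 * e.2 + 4 * ((e.2 : ℝ) ^ 2 / L) := by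
      simp only [sep, h6, if_true]; ring
    rw [e1]; constructor <;> linarith
  · have e1 : sep L e = 4 * L - 6 * e.2 + 29 / 40 * ((e.2 : ℝ) ^ 2 / L) := by
      simp only [sep, h6, one_ne_zero, if_false, if_true]; ring
    rw [e1]; constructor <;> linarith
  · have e1 : sep L e = 4 * L - 12 * e.2 + 19 / 6 * ((e.2 : ℝ) ^ 2 / L) := by
      simp only [sep, h6, OfNat.ofNat_ne_zero, OfNat.ofNat_ne_one, if_false]; ring
    rw [e1]; constructor <;> linarith

theorem err_le {L : ℤ} {H : ℝ} (hH : 1 ≤ H) (hL : 2000 * H ≤ L) :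
    1200 * H ^ 3 / (L : ℝ) ^ 2 ≤ H := by
  have hL0 : (0 : ℝ) < L := by linarith
  rw [div_le_iff₀ (by positivity)]
  have h1 : (2000 * H) ^ 2 ≤ (L : ℝ) ^ 2 := pow_le_pow_left₀ (by linarith) hL 2
  nlinarith

theorem per_le {L : ℤ} {H : ℝ} (hH : 1 ≤ H) (hL : 2000 * H ≤ L) {t : Elt × Elt × Elt}
    (h : ∀ e ∈ el t, Small H e) : perE L t ≤ 12 * L + 64 * H := by
  have hL0 : (0 : ℝ) < L := by linarith
  have h1 := h t.1 (by simp [el])
  have h2 := h t.2.1 (by simp [el])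
  have h3 := h t.2.2 (by simp [el])
  by_cases ht : Trans t
  · have h4 := per_trans hH hL h1.1 h2.1 h3.1 ht
    have h5 := abs_le.1 h4
    have h6 := (sep_le hL hH h1).1
    have h7 := (sep_le hL hH h2).1
    have h8 := (sep_le hL hH h3).1
    have h9 := err_le hH hL
    have h10 : 0 ≤ ((hs t : ℤ) : ℝ) ^ 2 / (2 * L) := by positivity
    linarith
  · have := per_not_trans (L := L) (H := H) (by linarith) h1.1 h2.1 h3.1 h1.2 h2.2 h3.2 ht
    linarith

theorem val_not_trans {L : ℤ} {H : ℝ} (hH : 1 ≤ H) (hL : 2000 * H ≤ L)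
    (π : List (Elt × Elt × Elt)) (h : ∀ e ∈ π.flatMap el, Small H e) :
    valE L π ≤ π.length * (12 * L + 64 * H) ∧
      ((∃ t ∈ π, ¬ Trans t) → valE L π ≤ π.length * (12 * L + 64 * H) - 2 * L) := by
  induction π with
  | nil => simp [valE]
  | cons t π ih =>
    obtain ⟨i1, i2⟩ := ih (fun e he => h e (by rw [List.flatMap_cons]; exact List.mem_append_right _ he))
    have hm : ∀ e ∈ el t, Small H e := fun e he =>
      h e (by rw [List.flatMap_cons]; exact List.mem_append_left _ he)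
    have h1 := per_le hH hL hm
    unfold valE at *
    simp only [List.map_cons, List.sum_cons, List.length_cons]
    push_cast
    refine ⟨by linarith, ?_⟩
    rintro ⟨t', ht', hn⟩
    rcases List.mem_cons.1 ht' with rfl | ht'
    · have := per_not_trans (L := L) (H := H) (by linarith) (hm t'.1 (by simp [el])).1
        (hm t'.2.1 (by simp [el])).1 (hm t'.2.2 (by simp [el])).1 (hm t'.1 (by simp [el])).2
        (hm t'.2.1 (by simp [el])).2 (hm t'.2.2 (by simp [el])).2 hn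
      linarith
    · have := i2 ⟨t', ht', hn⟩
      linarith

/-- The separable part, scaled. -/
def SE (L : ℤ) (e : Elt) : ℤ :=
  if e.1 = 0 then 240 * L * (4 * L - 7 * e.2) + 960 * (e.2 * e.2)
  else if e.1 = 1 then 240 * L * (4 * L - 6 * e.2) + 174 * (e.2 * e.2)
  else 240 * L * (4 * L - 12 * e.2) + 760 * (e.2 * e.2)

theorem SE_eq {L : ℤ} (hL : 0 < L) (e : Elt) : (SE L e : ℝ) = 240 * L * sep L e := by
  have hL0 : (L : ℝ) ≠ 0 := by positivity
  unfold SE sep
  split_ifs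
  · push_cast; field_simp; ring
  · push_cast; field_simp; ring
  · push_cast; field_simp; ring

theorem sum_SE {L : ℤ} (hL : 0 < L) (E : List Elt) :
    (((E.map (SE L)).sum : ℤ) : ℝ) = 240 * L * (E.map (sep L)).sum := by
  induction E with
  | nil => simp
  | cons e E ih =>
    simp only [List.map_cons, List.sum_cons]
    rw [Int.cast_add, ih, SE_eq hL]
    ring

/-- The bound of the decision version. -/
def thr (L θ : ℤ) (E : List Elt) : ℤ := (E.map (SE L)).sum - 120 * (θ + 1)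

theorem length_flatMap_el {α : Type} (π : List (α × α × α)) :
    (π.flatMap el).length = 3 * π.length := by
  rw [List.length_flatMap]
  have : ∀ t ∈ π, (el t).length = 3 := fun t _ => rfl
  rw [List.map_congr_left this]
  simp [mul_comm]

/-- The assumptions on the sizes. -/
structure Big (L θ : ℤ) (H : ℝ) (n : ℕ) : Prop where
  hH : 1 ≤ H
  hL : 2000 * H ≤ L
  hn : 2400 * n * H ^ 3 ≤ L
  hθ : θ + 1 ≤ L

theorem thr_up {L θ : ℤ} {H : ℝ} {E : List Elt} {π : List (Elt × Elt × Elt)}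
    (hb : Big L θ H π.length) (hE : ∀ e ∈ E, Small H e) (hp : (π.flatMap el).Perm E)
    (ht : ∀ t ∈ π, Trans t) (hQ : QE π ≤ θ) : (thr L θ E : ℝ) ≤ 240 * L * valE L π := by
  have hL0 : (0 : ℝ) < L := by have := hb.hH; have := hb.hL; linarith
  have hL0' : 0 < L := by exact_mod_cast hL0
  have h := abs_le.1 (val_trans hb.hH hb.hL π (fun e he => hE e (hp.mem_iff.1 he)) ht)
  rw [(hp.map (sep L)).sum_eq] at h
  unfold thr
  rw [Int.cast_sub, sum_SE hL0']
  push_cast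
  have h1 : (QE π : ℝ) ≤ θ := by exact_mod_cast hQ
  have h2 : 240 * (L : ℝ) * (π.length * (1200 * H ^ 3 / (L : ℝ) ^ 2)) ≤ 120 := by
    have e : 240 * (L : ℝ) * (π.length * (1200 * H ^ 3 / (L : ℝ) ^ 2)) =
      120 * (2400 * π.length * H ^ 3) / L := by
      field_simp
      ring
    rw [e, div_le_iff₀ hL0]
    have := hb.hn
    linarith
  have h3 : 240 * (L : ℝ) * ((QE π : ℝ) / (2 * L)) = 120 * QE π := by
    field_simp
    ring
  have h4 := mul_le_mul_of_nonneg_left h.1 (by positivity : 0 ≤ 240 * (L : ℝ))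
  nlinarith

theorem thr_down {L θ : ℤ} {H : ℝ} {E : List Elt} {π : List (Elt × Elt × Elt)}
    (hθ0 : 0 ≤ θ) (hb : Big L θ H π.length) (hE : ∀ e ∈ E, Small H e)
    (hp : (π.flatMap el).Perm E) (h : (thr L θ E : ℝ) ≤ 240 * L * valE L π) :
    (∀ t ∈ π, Trans t) ∧ QE π ≤ θ + 2 := by
  have hH := hb.hH
  have hL := hb.hL
  have hn := hb.hn
  have hθ : (θ : ℝ) + 1 ≤ L := by exact_mod_cast hb.hθ
  have hL0 : (0 : ℝ) < L := by linarith
  have hL0' : 0 < L := by exact_mod_cast hL0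
  have hlen := hp.length_eq
  rw [length_flatMap_el] at hlen
  have hsep : ∀ (E : List Elt), (∀ e ∈ E, Small H e) →
      (E.length : ℝ) * (4 * L - 12 * H) ≤ (E.map (sep L)).sum := by
    intro E hE
    induction E with
    | nil => simp
    | cons e E ih =>
      have h1 := ih fun e he => hE e (List.mem_cons_of_mem _ he)
      have h2 := (sep_le hL hH (hE e (List.mem_cons_self ..))).2
      simp only [List.map_cons, List.sum_cons, List.length_cons]
      push_cast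
      linarith
  have hs := hsep E hE
  rw [← hlen] at hs
  push_cast at hs
  unfold thr at h
  rw [Int.cast_sub, sum_SE hL0'] at h
  push_cast at h
  have ht : ∀ t ∈ π, Trans t := by
    by_contra hcon
    push Not at hcon
    obtain ⟨h1, h2⟩ := val_not_trans hH hL π (fun e he => hE e (hp.mem_iff.1 he))
    have h3 := h2 hcon
    have hπ : (1 : ℝ) ≤ π.length := by
      obtain ⟨t, ht, -⟩ := hcon
      have := List.length_pos_of_mem ht
      exact_mod_cast this
    have h4 := mul_le_mul_of_nonneg_left h3 (by positivity : 0 ≤ 240 * (L : ℝ))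
    have h5 := mul_le_mul_of_nonneg_left hs (by positivity : 0 ≤ 240 * (L : ℝ))
    -- `2 L` against `100 n H`
    have h6 : (π.length : ℝ) * (100 * H) + 1 ≤ L := by
      have h7 : H ≤ H ^ 3 := by nlinarith [sq_nonneg (H - 1), sq_nonneg H]
      have h8 : (π.length : ℝ) * H ≤ π.length * H ^ 3 :=
        mul_le_mul_of_nonneg_left h7 (by positivity)
      have h9 : 1 ≤ (π.length : ℝ) * H := by nlinarith
      nlinarith
    have h10 : 240 * (L : ℝ) * (π.length * (12 * L + 64 * H) - 2 * L) -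
      240 * (L : ℝ) * (3 * π.length * (4 * L - 12 * H)) =
        240 * L * (π.length * (100 * H) - 2 * L) := by ring
    have h11 : 240 * (L : ℝ) * (π.length * (100 * H) - 2 * L) ≤ 240 * L * (-1 - L) :=
      mul_le_mul_of_nonneg_left (by linarith) (by positivity)
    nlinarith
  refine ⟨ht, ?_⟩
  have h1 := abs_le.1 (val_trans hH hL π (fun e he => hE e (hp.mem_iff.1 he)) ht)
  rw [(hp.map (sep L)).sum_eq] at h1
  have h2 : 240 * (L : ℝ) * (π.length * (1200 * H ^ 3 / (L : ℝ) ^ 2)) ≤ 120 := by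
    have e : 240 * (L : ℝ) * (π.length * (1200 * H ^ 3 / (L : ℝ) ^ 2)) =
      120 * (2400 * π.length * H ^ 3) / L := by
      field_simp
      ring
    rw [e, div_le_iff₀ hL0]
    linarith
  have h3 : 240 * (L : ℝ) * ((QE π : ℝ) / (2 * L)) = 120 * QE π := by
    field_simp
    ring
  have h4 := mul_le_mul_of_nonneg_left h1.2 (by positivity : 0 ≤ 240 * (L : ℝ))
  have h5 : (QE π : ℝ) ≤ θ + 2 := by nlinarith
  exact_mod_cast h5

end Pool.Agent.H557R2.Tri
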