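import Pool.Agent.H557R2.Tri.Comb

/-!
# Exact cover by 3-sets with three roles is NP-hard
-/

namespace Pool.Agent.H557R2.Tri

open Pool.Agent.NPC Pool.Agent.NPC.H632

theorem trips_occ {φ : List (Lit ℕ × Lit ℕ × Lit ℕ)} (hne : φ ≠ []) {e : E3}
    (he : e ∈ elems φ.length) : ∃ t ∈ trips φ, e ∈ el t := by
  have hm : 0 < φ.length := List.length_pos_iff.2 hne
  rcases mem_elems.1 he with ⟨i, j, hi, hj, h⟩ | ⟨j, hj, h⟩ | ⟨k, hk, h⟩
  · rcases h with rfl | rfl | ⟨s, rfl⟩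
    · exact ⟨tT i j, mem_trips.2 (Or.inl ⟨i, j, hi, hj, Or.inl rfl⟩), by simp [el, tT]⟩
    · exact ⟨tT i j, mem_trips.2 (Or.inl ⟨i, j, hi, hj, Or.inl rfl⟩), by simp [el, tT]⟩
    · cases s
      · exact ⟨tT i j, mem_trips.2 (Or.inl ⟨i, j, hi, hj, Or.inl rfl⟩), by simp [el, tT]⟩
      · exact ⟨tF φ.length i j, mem_trips.2 (Or.inl ⟨i, j, hi, hj, Or.inr rfl⟩),
          by simp [el, tF]⟩
  · have hq : φ[j]? = some φ[j] := List.getElem?_eq_getElem hj
    rcases h with rfl | rfl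
    · exact ⟨tC φ[j].1 j, mem_trips.2 (Or.inr (Or.inl ⟨_, j, hq, Or.inl rfl⟩)), by simp [el, tC]⟩
    · exact ⟨tC φ[j].1 j, mem_trips.2 (Or.inr (Or.inl ⟨_, j, hq, Or.inl rfl⟩)), by simp [el, tC]⟩
  · rcases h with rfl | rfl
    · exact ⟨tG true 0 0 k, mem_trips.2 (Or.inr (Or.inr ⟨true, 0, 0, k, by omega, hm, hk, rfl⟩)),
        by simp [el, tG]⟩
    · exact ⟨tG true 0 0 k, mem_trips.2 (Or.inr (Or.inr ⟨true, 0, 0, k, by omega, hm, hk, rfl⟩)),
        by simp [el, tG]⟩

/-- The role of an element of the typed instance. -/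
def role (e : E3) : ℕ :=
  if e.1 = 2 ∨ e.1 = 3 then 0 else if e.1 = 0 ∨ e.1 = 4 ∨ e.1 = 6 then 1 else 2

theorem role_tip (s : Bool) (i j : ℕ) : role (tip s i j) = 0 := by
  cases s <;> simp [role, tip]

theorem trips_role {φ : List (Lit ℕ × Lit ℕ × Lit ℕ)} {t : E3 × E3 × E3} (ht : t ∈ trips φ) :
    role t.1 = 0 ∧ role t.2.1 = 1 ∧ role t.2.2 = 2 := by
  rcases mem_trips.1 ht with ⟨i, j, -, -, rfl | rfl⟩ | ⟨c, j, -, rfl | rfl | rfl⟩ |
    ⟨s, i, j, k, -, -, -, rfl⟩
  · exact ⟨role_tip _ _ _, rfl, rfl⟩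
  · exact ⟨role_tip _ _ _, rfl, rfl⟩
  · exact ⟨role_tip _ _ _, rfl, rfl⟩
  · exact ⟨role_tip _ _ _, rfl, rfl⟩
  · exact ⟨role_tip _ _ _, rfl, rfl⟩
  · exact ⟨role_tip _ _ _, rfl, rfl⟩

/-- **Exact cover with three roles is NP-hard.** -/
theorem hardPr_X3Cr : HardPr (fun I : List (ℕ × ℕ × ℕ) × ℕ => Pr I.1 I.2) X3C := by
  refine hardPr_SAT3b.trans poly_red ?_ ?_
  · rintro φ ⟨_, hb, hne⟩
    have hsub := trips_sub hb
    have hin : ∀ s ∈ trips φ, s.1 ∈ elems φ.length ∧ s.2.1 ∈ elems φ.length ∧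
        s.2.2 ∈ elems φ.length := fun s hs =>
      ⟨hsub s hs _ (by simp [el]), hsub s hs _ (by simp [el]), hsub s hs _ (by simp [el])⟩
    have hlt : ∀ e ∈ elems φ.length, index (elems φ.length) e < 3 * (6 * φ.length * φ.length) := by
      intro e he
      have := index_lt he
      rwa [elems_length] at this
    refine ⟨?_, ?_, ?_, ?_, ?_, ?_⟩
    · intro t ht
      obtain ⟨s, hs, rfl⟩ := List.mem_map.1 ht
      exact ⟨hlt _ (hin s hs).1, hlt _ (hin s hs).2.1, hlt _ (hin s hs).2.2⟩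
    · intro t ht t' ht' he
      obtain ⟨s, hs, rfl⟩ := List.mem_map.1 ht
      obtain ⟨s', hs', rfl⟩ := List.mem_map.1 ht'
      have := index_inj (hin s hs).1 (hin s' hs').2.1 he
      have h1 := (trips_role hs).1
      rw [this, (trips_role hs').2.1] at h1
      exact absurd h1 (by norm_num)
    · intro t ht t' ht' he
      obtain ⟨s, hs, rfl⟩ := List.mem_map.1 ht
      obtain ⟨s', hs', rfl⟩ := List.mem_map.1 ht'
      have := index_inj (hin s hs).1 (hin s' hs').2.2 he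
      have h1 := (trips_role hs).1
      rw [this, (trips_role hs').2.2] at h1
      exact absurd h1 (by norm_num)
    · intro t ht t' ht' he
      obtain ⟨s, hs, rfl⟩ := List.mem_map.1 ht
      obtain ⟨s', hs', rfl⟩ := List.mem_map.1 ht'
      have := index_inj (hin s hs).2.1 (hin s' hs').2.2 he
      have h1 := (trips_role hs).2.1
      rw [this, (trips_role hs').2.2] at h1
      exact absurd h1 (by norm_num)
    · intro e he
      have he' : e ∈ (elems φ.length).map (index (elems φ.length)) := by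
        rw [map_index (elems_nodup _), List.mem_range, elems_length]
        exact he
      obtain ⟨x, hx, rfl⟩ := List.mem_map.1 he'
      obtain ⟨t, ht, hxt⟩ := trips_occ hne hx
      exact ⟨ren (elems φ.length) t, List.mem_map_of_mem ht,
        List.mem_map_of_mem (f := index (elems φ.length)) hxt⟩
    · intro h0
      have hm : 0 < φ.length := List.length_pos_iff.2 hne
      have h1 : (red φ).1 = (trips φ).map (ren (elems φ.length)) := rfl
      rw [h1, List.map_eq_nil_iff] at h0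
      have h2 : tT 0 0 ∈ trips φ := mem_trips.2 (Or.inl ⟨0, 0, by omega, hm, Or.inl rfl⟩)
      rw [h0] at h2
      simp at h2
  · rintro φ ⟨_, hb, hne⟩
    unfold red
    rw [← XC_ren (elems_nodup _) elems_length (trips_sub hb)]
    exact ⟨sat_to_cover hb hne, cover_to_sat hb⟩

end Pool.Agent.H557R2.Tri
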