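import Pool.Agent.H557R2.Tri.Emb
import Pool.Agent.H557R2.Tri.Src
import Pool.Agent.H687R2.IntPoly
import Pool.Agent.H622R2.CoNP
import Pool.Agent.H557R2.Mve.Red

/-!
# The reduction is computable in polynomial time
-/

namespace Pool.Agent.H557R2.Tri

open Pool.Agent.NPC Pool.Agent.NPC.H632

attribute [local fun_prop] Poly.iadd Poly.isub Poly.imul Poly.ineg

section Gen
variable {α : Type} [TEnc α]

theorem poly_rat {f : α → ℤ} (hf : Poly f) : Poly (fun a => ((f a : ℤ) : ℚ)) :=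
  Poly.of_toT ((Poly.toT' (Poly.pair hf (NPC.Poly.const (1 : ℕ)))).congr fun a => by
    change toT (f a, 1) = toT (((f a : ℤ) : ℚ).num, ((f a : ℤ) : ℚ).den)
    rw [Rat.num_intCast, Rat.den_intCast])

theorem poly_cmp {S : α → List (ℕ × ℕ × ℕ)} {i : α → ℕ} (r : ℕ) (hS : Poly S) (hi : Poly i) :
    Poly (fun a => cmp (S a) r (i a)) := by
  have h := Poly.getD hS hi (NPC.Poly.const (0, 0, 0))
  unfold cmp
  by_cases h0 : r = 0
  · simp only [h0, if_true]
    exact Poly.fst h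
  · by_cases h1 : r = 1
    · simp only [h1, one_ne_zero, if_true, if_false]
      exact Poly.fst (Poly.snd h)
    · simp only [h0, h1, if_false]
      exact Poly.snd (Poly.snd h)

theorem poly_rl {S : α → List (ℕ × ℕ × ℕ)} {i : α → ℕ} (r : ℕ) (hS : Poly S) (hi : Poly i) :
    Poly (fun a => rl (S a) r (i a)) := by
  unfold rl
  have h1 : Poly (fun p : α × ℕ => cmp (S p.1) r p.2) := poly_cmp r (hS.comp (by fun_prop))
    (by fun_prop)
  have h2 : Poly (fun p : α × ℕ => cmp (S p.1) r (i p.1)) := poly_cmp r (hS.comp (by fun_prop))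
    (hi.comp (by fun_prop))
  have h3 : Poly (fun p : α × ℕ => i p.1) := hi.comp (by fun_prop)
  exact Poly.all (UPoly.length hS).range (by fun_prop)

theorem poly_ite' {b : α → Bool} {β : Type} [TEnc β] {f g : α → β} (hb : Poly b) (hf : Poly f)
    (hg : Poly g) : Poly (fun a => if b a = true then f a else g a) :=
  (Poly.cond hb hf hg).congr fun a => by cases b a <;> rfl

theorem poly_aS {S : α → List (ℕ × ℕ × ℕ)} {k i : α → ℕ} (hS : Poly S) (hk : Poly k)
    (hi : Poly i) : Poly (fun a => aS (S a) (k a) (i a)) := by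
  unfold aS
  have h0 := poly_cmp 0 hS hi
  have h1 := poly_cmp 1 hS hi
  fun_prop

theorem poly_bS {S : α → List (ℕ × ℕ × ℕ)} {k i : α → ℕ} (hS : Poly S) (hk : Poly k)
    (hi : Poly i) : Poly (fun a => bS (S a) (k a) (i a)) := by
  unfold bS
  have h0 := poly_cmp 0 hS hi
  have h1 := poly_cmp 1 hS hi
  have h2 := poly_cmp 2 hS hi
  have g0 : Poly fun a => (if rl (S a) 0 (i a) = true then (2 : ℤ) else 3) :=
    poly_ite' (poly_rl 0 hS hi) (NPC.Poly.const _) (NPC.Poly.const _)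
  have g1 : Poly fun a => (if rl (S a) 1 (i a) = true then (8 : ℤ) else 9) :=
    poly_ite' (poly_rl 1 hS hi) (NPC.Poly.const _) (NPC.Poly.const _)
  have g2 : Poly fun a => (if rl (S a) 2 (i a) = true then (20 : ℤ) else 18) :=
    poly_ite' (poly_rl 2 hS hi) (NPC.Poly.const _) (NPC.Poly.const _)
  have e0 : Poly fun a => (32 * (cmp (S a) 0 (i a) : ℤ) +
    (if rl (S a) 0 (i a) = true then (2 : ℤ) else 3)) := Poly.iadd (by fun_prop) g0
  have e1 : Poly fun a => (32 * (cmp (S a) 1 (i a) : ℤ) +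
    (if rl (S a) 1 (i a) = true then (8 : ℤ) else 9)) := Poly.iadd (by fun_prop) g1
  have e2 : Poly fun a => (32 * (cmp (S a) 2 (i a) : ℤ) +
    (if rl (S a) 2 (i a) = true then (20 : ℤ) else 18)) := Poly.iadd (by fun_prop) g2
  exact Poly.ite (by fun_prop) e0 (Poly.ite (by fun_prop) e1 e2)

theorem poly_cS {S : α → List (ℕ × ℕ × ℕ)} {k i : α → ℕ} (hS : Poly S) (hk : Poly k)
    (hi : Poly i) : Poly (fun a => cS (S a) (k a) (i a)) := by
  unfold cS
  have h1 := poly_cmp 1 hS hi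
  have h2 := poly_cmp 2 hS hi
  fun_prop

theorem poly_KK {q : α → ℕ} (hq : Poly q) : Poly (fun a => KK (q a)) := by
  unfold KK
  fun_prop

theorem poly_RR {m : α → ℕ} (hm : Poly m) : Poly (fun a => RR (m a)) := by
  unfold RR
  fun_prop

theorem poly_EE : Poly fun I : List (ℕ × ℕ × ℕ) × ℕ => EE I.1 I.2 := by
  unfold EE
  have hm : Poly fun I : List (ℕ × ℕ × ℕ) × ℕ => List.range I.1.length :=
    (UPoly.length (Poly.fst Poly.id)).range
  have h3 : ∀ {β : Type} [TEnc β], Poly fun _ : β => List.range 3 := NPC.Poly.const _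
  have hA : Poly fun p : ((List (ℕ × ℕ × ℕ) × ℕ) × ℕ) × ℕ => eA p.1.1.1 p.1.1.2 p.2 p.1.2 := by
    unfold eA
    have a1 := poly_aS (S := fun p : ((List (ℕ × ℕ × ℕ) × ℕ) × ℕ) × ℕ => p.1.1.1)
      (k := fun p => p.2) (i := fun p => p.1.2) (by fun_prop) (by fun_prop) (by fun_prop)
    have a2 := poly_KK (q := fun p : ((List (ℕ × ℕ × ℕ) × ℕ) × ℕ) × ℕ => p.1.1.2) (by fun_prop)
    have a3 := poly_RR (m := fun p : ((List (ℕ × ℕ × ℕ) × ℕ) × ℕ) × ℕ => p.1.1.1.length)
      (by fun_prop)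
    fun_prop
  have hB : Poly fun p : ((List (ℕ × ℕ × ℕ) × ℕ) × ℕ) × ℕ => eB p.1.1.1 p.2 p.1.2 := by
    unfold eB
    have a1 := poly_bS (S := fun p : ((List (ℕ × ℕ × ℕ) × ℕ) × ℕ) × ℕ => p.1.1.1)
      (k := fun p => p.2) (i := fun p => p.1.2) (by fun_prop) (by fun_prop) (by fun_prop)
    have a3 := poly_RR (m := fun p : ((List (ℕ × ℕ × ℕ) × ℕ) × ℕ) × ℕ => p.1.1.1.length)
      (by fun_prop)
    fun_prop
  have hC : Poly fun p : ((List (ℕ × ℕ × ℕ) × ℕ) × ℕ) × ℕ => eC p.1.1.1 p.1.1.2 p.2 p.1.2 := by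
    unfold eC
    have a1 := poly_cS (S := fun p : ((List (ℕ × ℕ × ℕ) × ℕ) × ℕ) × ℕ => p.1.1.1)
      (k := fun p => p.2) (i := fun p => p.1.2) (by fun_prop) (by fun_prop) (by fun_prop)
    have a2 := poly_KK (q := fun p : ((List (ℕ × ℕ × ℕ) × ℕ) × ℕ) × ℕ => p.1.1.2) (by fun_prop)
    have a3 := poly_RR (m := fun p : ((List (ℕ × ℕ × ℕ) × ℕ) × ℕ) × ℕ => p.1.1.1.length)
      (by fun_prop)
    fun_prop
  exact Poly.flatMap hm (Poly.append (NPC.Poly.map h3 hA) (Poly.append (NPC.Poly.map h3 hB)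
    (NPC.Poly.map h3 hC)))

theorem poly_HH {m q : α → ℕ} (hm : Poly m) (hq : Poly q) : Poly (fun a => HH (m a) (q a)) := by
  unfold HH
  have a2 := poly_KK hq
  have a3 := poly_RR hm
  fun_prop

theorem poly_LL {m q : α → ℕ} (hm : Poly m) (hq : Poly q) : Poly (fun a => LL (m a) (q a)) := by
  unfold LL
  have a2 := poly_HH hm hq
  fun_prop

theorem poly_eX {L : α → ℤ} {e : α → Elt} (hL : Poly L) (he : Poly e) :
    Poly (fun a => eX (L a) (e a)) := by
  unfold eX
  fun_prop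

theorem poly_eY {L : α → ℤ} {e : α → Elt} (hL : Poly L) (he : Poly e) :
    Poly (fun a => eY (L a) (e a)) := by
  unfold eY
  fun_prop

theorem poly_co (n : ℕ) {F L : α → ℤ} {e : α → Elt} (hF : Poly F) (hL : Poly L) (he : Poly e) :
    Poly (fun a => co n (F a) (L a) (e a)) := by
  unfold co
  exact Poly.cons (poly_rat (Poly.imul hF (poly_eX hL he)))
    (Poly.cons (poly_rat (Poly.imul hF (poly_eY hL he))) (NPC.Poly.const _))

theorem poly_SE {L : α → ℤ} {e : α → Elt} (hL : Poly L) (he : Poly e) :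
    Poly (fun a => SE (L a) (e a)) := by
  unfold SE
  fun_prop

end Gen

abbrev Inst : Type := List (ℕ × ℕ × ℕ) × ℕ

theorem poly_len : Poly fun I : Inst => I.1.length := by fun_prop
theorem poly_LI : Poly fun I : Inst => LL I.1.length I.2 := poly_LL (by fun_prop) (by fun_prop)
theorem poly_FI : Poly fun I : Inst => FF I.1.length I.2 := by
  unfold FF
  exact Poly.imul (NPC.Poly.const _) poly_LI

theorem poly_PP (n : ℕ) : Poly fun I : Inst => PP n I.1 I.2 := by
  unfold PP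
  exact NPC.Poly.map poly_EE (poly_co n (poly_FI.comp (Poly.fst Poly.id))
    (poly_LI.comp (Poly.fst Poly.id)) (Poly.snd Poly.id))

theorem poly_TT : Poly fun I : Inst => TT I.1 I.2 := by
  unfold TT thr
  have h1 : Poly fun I : Inst => (EE I.1 I.2).map (SE (LL I.1.length I.2)) :=
    NPC.Poly.map poly_EE (poly_SE (poly_LI.comp (Poly.fst Poly.id)) (Poly.snd Poly.id))
  have h2 : Poly fun I : Inst => TH I.1.length := by
    unfold TH
    fun_prop
  exact poly_rat (Poly.isub (Poly.isum h1) (by fun_prop))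

/-- **Euclidean Max-3DM is NP-hard in every fixed dimension at least two.** -/
theorem hard (n : ℕ) : NPHardP (Max3DM (n + 2)) := by
  have h := hardPr_X3Cr.trans (f := fun I : Inst => (PP n I.1 I.2, TT I.1 I.2))
    (Poly.pair (poly_PP n) poly_TT) (Pr' := fun _ => True) (Q := Max3DM (n + 2))
    (fun _ _ => trivial) fun I hI => hI.max_iff n
  exact h.toHardI.toNPHardP

end Pool.Agent.H557R2.Tri
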