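import Pool.Agent.H557R2.Tri.Red

/-!
# Computing an optimal partition
-/

namespace Pool.Agent.H557R2.Tri

open Pool.Agent.NPC Pool.Agent.NPC.H632

attribute [local fun_prop] Poly.iadd Poly.isub Poly.imul Poly.ineg

/-- The codes of the points. -/
def codes (n : ℕ) (I : Inst) : List T := (PP n I.1 I.2).map toT

/-- The element whose point has the given code. -/
noncomputable def decE (n : ℕ) (I : Inst) (τ : T) : Elt :=
  (EE I.1 I.2).getD (index (codes n I) τ) (0, 0)

/-- Is the triple transversal? -/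
def trB (t : Elt × Elt × Elt) : Bool :=
  (decide (t.1.1 = 0) && decide (t.2.1.1 = 1) && decide (t.2.2.1 = 2)) ||
  (decide (t.1.1 = 0) && decide (t.2.1.1 = 2) && decide (t.2.2.1 = 1)) ||
  (decide (t.1.1 = 1) && decide (t.2.1.1 = 0) && decide (t.2.2.1 = 2)) ||
  (decide (t.1.1 = 1) && decide (t.2.1.1 = 2) && decide (t.2.2.1 = 0)) ||
  (decide (t.1.1 = 2) && decide (t.2.1.1 = 0) && decide (t.2.2.1 = 1)) ||
  (decide (t.1.1 = 2) && decide (t.2.1.1 = 1) && decide (t.2.2.1 = 0))

theorem trB_iff {t : Elt × Elt × Elt} : trB t = true ↔ Trans t := by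
  unfold trB Trans
  simp only [Bool.or_eq_true, Bool.and_eq_true, decide_eq_true_eq, and_assoc, or_assoc]

/-- The test of a partition. -/
noncomputable def chk (n : ℕ) (I : Inst) (l : List (T × T × T)) : Bool :=
  l.all fun t => trB (decE n I t.1, decE n I t.2.1, decE n I t.2.2) &&
    decide (ms I.1.length (decE n I t.1, decE n I t.2.1, decE n I t.2.2) = 0)

section
variable {α : Type} [TEnc α]

theorem poly_trB {t : α → Elt × Elt × Elt} (ht : Poly t) : Poly (fun a => trB (t a)) := by
  unfold trB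
  fun_prop

theorem poly_mn {m : α → ℕ} {e : α → Elt} (hm : Poly m) (he : Poly e) :
    Poly (fun a => mn (m a) (e a)) := by
  have h : Poly (fun a => (e a).2 / ((4 * ((m a + 1) * (m a + 1)) : ℕ) : ℤ)) :=
    Poly.idiv (by fun_prop) (by fun_prop)
  refine h.congr fun a => ?_
  unfold mn RR
  push_cast
  rfl

theorem poly_ms {m : α → ℕ} {t : α → Elt × Elt × Elt} (hm : Poly m) (ht : Poly t) :
    Poly (fun a => ms (m a) (t a)) := by
  unfold ms
  exact Poly.iadd (Poly.iadd (poly_mn hm (by fun_prop)) (poly_mn hm (by fun_prop)))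
    (poly_mn hm (by fun_prop))

theorem poly_codes (n : ℕ) : Poly (codes n) :=
  NPC.Poly.map (poly_PP n) (Poly.toT' (Poly.snd Poly.id))

theorem poly_decE (n : ℕ) {I : α → Inst} {τ : α → T} (hI : Poly I) (hτ : Poly τ) :
    Poly (fun a => decE n (I a) (τ a)) := by
  unfold decE
  exact Poly.getD (poly_EE.comp hI) (Poly.index ((poly_codes n).comp hI) hτ) (NPC.Poly.const _)

theorem poly_chk (n : ℕ) {I : α → Inst} {l : α → List (T × T × T)} (hI : Poly I) (hl : Poly l) :
    Poly (fun a => chk n (I a) (l a)) := by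
  unfold chk
  have h1 : Poly fun p : α × (T × T × T) => decE n (I p.1) p.2.1 :=
    poly_decE n (hI.comp (by fun_prop)) (by fun_prop)
  have h2 : Poly fun p : α × (T × T × T) => decE n (I p.1) p.2.2.1 :=
    poly_decE n (hI.comp (by fun_prop)) (by fun_prop)
  have h3 : Poly fun p : α × (T × T × T) => decE n (I p.1) p.2.2.2 :=
    poly_decE n (hI.comp (by fun_prop)) (by fun_prop)
  have h4 : Poly fun p : α × (T × T × T) =>
      (decE n (I p.1) p.2.1, decE n (I p.1) p.2.2.1, decE n (I p.1) p.2.2.2) :=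
    Poly.pair h1 (Poly.pair h2 h3)
  have h5 : Poly fun p : α × (T × T × T) => (I p.1).1.length :=
    (poly_len.comp hI).comp (Poly.fst Poly.id)
  exact Poly.all hl (Poly.and (poly_trB h4) (Poly.decide_eq (poly_ms h5 h4) (NPC.Poly.const _)))

end

variable {S : List (ℕ × ℕ × ℕ)} {q : ℕ}

theorem Pr.decE_eq (h : Pr S q) (n : ℕ) {e : Elt} (he : e ∈ EE S q) :
    decE n (S, q) (toT (co n (FF S.length q) (LL S.length q) e)) = e := by
  have hmem : toT (co n (FF S.length q) (LL S.length q) e) ∈ codes n (S, q) := by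
    unfold codes PP
    exact List.mem_map_of_mem (List.mem_map_of_mem he)
  have h1 := getElem?_index hmem
  unfold decE
  generalize index (codes n (S, q)) (toT (co n (FF S.length q) (LL S.length q) e)) = k at *
  unfold codes PP at h1
  rw [List.getElem?_map, List.getElem?_map] at h1
  simp only at h1 ⊢
  rw [List.getD_eq_getElem?_getD]
  cases h2 : (EE S q)[k]? with
  | none => rw [h2] at h1; simp at h1
  | some e' =>
    rw [h2] at h1
    simp only [Option.map_some, Option.some.injEq] at h1
    have h3 := TEnc.inj h1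
    have h4 := h.co_inj (List.mem_of_getElem? h2) he h3
    simp [h4]

theorem Pr.chk_iff (h : Pr S q) (n : ℕ) {π : List (Elt × Elt × Elt)}
    (hp : (π.flatMap el).Perm (EE S q)) :
    chk n (S, q) ((π.map (co3 n (FF S.length q) (LL S.length q))).map
      fun t => (toT t.1, toT t.2.1, toT t.2.2)) = true ↔ ZP S q π := by
  have hmem : ∀ t ∈ π, ∀ e ∈ el t, e ∈ EE S q := fun t ht e he =>
    hp.mem_iff.1 (List.mem_flatMap.2 ⟨t, ht, he⟩)
  have key : ∀ t ∈ π, (decE n (S, q) (toT (co3 n (FF S.length q) (LL S.length q) t).1),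
      decE n (S, q) (toT (co3 n (FF S.length q) (LL S.length q) t).2.1),
      decE n (S, q) (toT (co3 n (FF S.length q) (LL S.length q) t).2.2)) = t := by
    intro t ht
    unfold co3
    simp only
    rw [h.decE_eq n (hmem t ht t.1 (by simp [el])), h.decE_eq n (hmem t ht t.2.1 (by simp [el])),
      h.decE_eq n (hmem t ht t.2.2 (by simp [el]))]
  unfold chk ZP
  rw [List.all_eq_true]
  constructor
  · intro hc
    refine ⟨hp, fun t ht => ?_⟩
    have h1 := hc _ (List.mem_map_of_mem (List.mem_map_of_mem ht))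
    simp only at h1
    rw [key t ht, Bool.and_eq_true, trB_iff, decide_eq_true_eq] at h1
    exact h1
  · rintro ⟨-, hz⟩ x hx
    obtain ⟨y, hy, rfl⟩ := List.mem_map.1 hx
    obtain ⟨t, ht, rfl⟩ := List.mem_map.1 hy
    simp only
    rw [key t ht, Bool.and_eq_true, trB_iff, decide_eq_true_eq]
    exact hz t ht

theorem bits_codes (π' : List (List ℚ × List ℚ × List ℚ)) :
    bits (π'.map fun t => (toT t.1, toT t.2.1, toT t.2.2)) = bits π' := by
  unfold bits
  congr 1
  change T.ofList ((π'.map fun t => (toT t.1, toT t.2.1, toT t.2.2)).map toT) =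
    T.ofList (π'.map toT)
  rw [List.map_map]
  rfl

/-- **An algorithm computing optimal partitions in polynomial time would put `NP` in `P`.** -/
theorem collapse (n : ℕ) (hopt : PolyOpt (n + 2)) : ∀ L, InNP L → InP L := by
  obtain ⟨F, hF, hopt⟩ := hopt
  have hF' := Pool.Agent.H622R2.poly_of_polyTime hF
  let d : Inst → Bool := fun I => (unbits (List (T × T × T)) (F (bits (PP n I.1 I.2)))).elim false
    fun l => chk n I l
  have hd : Poly d := by
    refine Poly.optElim (poly_unbits.comp (hF'.comp (Mve.poly_bits (poly_PP n))))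
      (NPC.Poly.const _) ?_
    exact poly_chk n (Poly.fst Poly.id) (Poly.snd Poly.id)
  refine hardPr_X3Cr.collapse hd ?_
  rintro ⟨S, q⟩ hI
  simp only at hI
  obtain ⟨π', h1, h2⟩ := hopt (PP n S q) (hI.valid n)
  obtain ⟨π, rfl, hp⟩ := (hI.part_iff n).1 h2.1
  rw [hI.opt_iff n h2 hp, ← hI.chk_iff n hp]
  have e : d (S, q) = chk n (S, q) ((π.map (co3 n (FF S.length q) (LL S.length q))).map
      fun t => (toT t.1, toT t.2.1, toT t.2.2)) := by
    simp only [d]
    rw [h1, ← bits_codes, unbits_bits]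
    rfl
  rw [e]

end Pool.Agent.H557R2.Tri
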